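import Pool.Agent.Helper1.FIM.Rational

/-!
The dichotomy for sets of words with contexts in the fixed-point language.
-/

namespace Pool.Agent.Helper1.FIM

open FreeGroup hiding map_mul map_inv map_one

universe u
variable {A : Type u}

/-- Commuting elements of a free group have a common power. -/
lemma exists_common_power {k q : FreeGroup A} (hc : k * q = q * k) (hq : q ≠ 1) :
    ∃ n m : ℤ, n ≠ 0 ∧ k ^ n = q ^ m := by
  let H : Subgroup (FreeGroup A) := Subgroup.closure {k, q}
  have hk : k ∈ H := Subgroup.subset_closure (by simp)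
  have hqH : q ∈ H := Subgroup.subset_closure (by simp)
  have hcomm : ∀ a b : H, a * b = b * a := by
    have := Subgroup.isMulCommutative_closure (k := ({k, q} : Set (FreeGroup A))) (by
      rintro x (rfl | rfl) y (rfl | rfl)
      · rfl
      · exact hc
      · exact hc.symm
      · rfl)
    intro a b
    exact mul_comm' a b
  let e := IsFreeGroup.toFreeGroup H
  have hF : ∀ a b : FreeGroup (IsFreeGroup.Generators H), a * b = b * a := by
    intro a b
    have h1 := congrArg e (hcomm (e.symm a) (e.symm b))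
    simpa using h1
  have hsub : Subsingleton (IsFreeGroup.Generators H) := by
    constructor
    intro i j
    by_contra hij
    classical
    have h1 := hF (of i) (of j)
    have h2 := congrArg toWord h1
    simp only [of, mul_mk, toWord_mk] at h2
    have hji : j ≠ i := fun h => hij h.symm
    simp [reduce.cons, hij] at h2
  have hne : Nonempty (IsFreeGroup.Generators H) := by
    by_contra hemp
    rw [not_nonempty_iff] at hemp
    have : e ⟨q, hqH⟩ = e 1 := Subsingleton.elim _ _
    have h2 := e.injective this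
    apply hq
    exact congrArg Subtype.val h2
  obtain ⟨i₀⟩ := hne
  let _ : Unique (IsFreeGroup.Generators H) := ⟨⟨i₀⟩, fun a => Subsingleton.elim _ _⟩
  obtain ⟨z, hz⟩ := IsCyclic.exists_generator (α := FreeGroup (IsFreeGroup.Generators H))
  obtain ⟨a, ha⟩ := Subgroup.mem_zpowers_iff.1 (hz (e ⟨k, hk⟩))
  obtain ⟨b, hb⟩ := Subgroup.mem_zpowers_iff.1 (hz (e ⟨q, hqH⟩))
  refine ⟨b, a, ?_, ?_⟩
  · rintro rfl
    rw [zpow_zero] at hb
    have h2 : (⟨q, hqH⟩ : H) = 1 := e.injective (by rw [← hb, map_one])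
    exact hq (congrArg Subtype.val h2)
  · have h1 : (e ⟨k, hk⟩) ^ b = (e ⟨q, hqH⟩) ^ a := by
      rw [← ha, ← hb, ← zpow_mul, ← zpow_mul, mul_comm]
    rw [← map_zpow, ← map_zpow] at h1
    have h2 := congrArg Subtype.val (e.injective h1)
    simpa using h2

lemma free_zpow_inj {x y : FreeGroup A} {n : ℤ} (hn : n ≠ 0) (h : x ^ n = y ^ n) : x = y := by
  have key : ∀ m : ℕ, m ≠ 0 → x ^ m = y ^ m → x = y := fun m hm h =>
    IsMulTorsionFree.pow_left_injective hm h
  obtain ⟨m, rfl | rfl⟩ := n.eq_nat_or_neg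
  · rw [zpow_natCast, zpow_natCast] at h
    exact key m (by simpa using hn) h
  · rw [zpow_neg, zpow_neg, inv_inj, zpow_natCast, zpow_natCast] at h
    exact key m (by simpa using hn) h

lemma free_pow_inj {k : FreeGroup A} (hk : k ≠ 1) : Function.Injective fun n : ℕ => k ^ n := by
  have key : ∀ i j : ℕ, i ≤ j → k ^ i = k ^ j → i = j := by
    intro i j hij h
    by_contra hne
    have hlt : 0 < j - i := by omega
    have h1 : k ^ (j - i) = 1 := by
      have : k ^ j = k ^ i * k ^ (j - i) := by rw [← pow_add]; congr 1; omega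
      rw [this] at h
      exact (mul_eq_left.1 h.symm)
    apply hk
    apply IsMulTorsionFree.pow_left_injective (n := j - i) (by omega)
    simpa using h1
  intro i j h
  rcases le_total i j with hij | hij
  · exact key i j hij h
  · exact (key j i hij h.symm).symm

variable (W : A → List (A × Bool))

lemma phib_mem_vlist {w : List (A × Bool)} (hw : IsFix W w) {v : FreeGroup A}
    (hv : v ∈ vlist w) : phib W v ∈ vlist w := by
  rw [mem_vlist] at hv ⊢
  obtain ⟨w1, w2, h, rfl⟩ := hv
  have h1 : ∃ y1 y2, Phi W w = y1 ++ y2 ∧ 1 * mk y1 = phib W (mk w1) :=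
    ⟨Phi W w1, Phi W w2, by rw [h, Phi_append], by rw [one_mul, mk_Phi]⟩
  rw [visited_iff] at h1
  have h2 : edges (1 : FreeGroup A) (Phi W w) = edges 1 w := by
    have := edges_Phi W 1 w
    rw [map_one] at this
    rw [this]; exact hw.1
  rw [h2, ← visited_iff] at h1
  simpa using h1

lemma orbit_finite {w : List (A × Bool)} (hw : IsFix W w) {v : FreeGroup A}
    (hv : v ∈ vlist w) : (Set.range fun n : ℕ => (phib W)^[n] v).Finite := by
  apply (List.finite_toSet (vlist w)).subset
  rintro _ ⟨n, rfl⟩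
  induction n with
  | zero => exact hv
  | succ n ih =>
    simp only [Function.iterate_succ_apply']
    exact phib_mem_vlist W hw ih

lemma disp_eq_of_conj {s s' h : FreeGroup A} (hh : h ≠ 1)
    (hs : phib W (s * h * s⁻¹) = s * h * s⁻¹) (hs' : phib W (s' * h * s'⁻¹) = s' * h * s'⁻¹)
    (hf : (Set.range fun n : ℕ => (phib W)^[n] s).Finite)
    (hf' : (Set.range fun n : ℕ => (phib W)^[n] s').Finite) : disp W s = disp W s' := by
  rw [disp_eq_iff]
  set r := s * s'⁻¹ with hr
  set q := s * h * s⁻¹ with hq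
  set q' := s' * h * s'⁻¹ with hq'
  set k := phib W r * r⁻¹ with hk
  have hqr : q = r * q' * r⁻¹ := by rw [hq, hr, hq']; group
  have hq1 : q ≠ 1 := by
    rw [hq]; intro h1
    apply hh
    have : h = s⁻¹ * (s * h * s⁻¹) * s := by group
    rw [this, h1]; group
  have hqphi : q = phib W r * q' * (phib W r)⁻¹ := by
    calc q = phib W q := hs.symm
      _ = phib W (r * q' * r⁻¹) := by rw [← hqr]
      _ = phib W r * q' * (phib W r)⁻¹ := by rw [map_mul, map_mul, map_inv, hs']
  have hcomm : k * q = q * k := by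
    have h1 : k * q * k⁻¹ = q := by
      conv_lhs => rw [hqr, hk]
      have : phib W r * r⁻¹ * (r * q' * r⁻¹) * (phib W r * r⁻¹)⁻¹ =
        phib W r * q' * (phib W r)⁻¹ := by group
      rw [this, ← hqphi]
    calc k * q = k * q * k⁻¹ * k := by group
      _ = q * k := by rw [h1]
  obtain ⟨n, m, hn, hnm⟩ := exists_common_power hcomm hq1
  have hkfix : phib W k = k := by
    apply free_zpow_inj hn
    rw [← map_zpow, hnm, map_zpow, hs]
  have hiter : ∀ j : ℕ, (phib W)^[j] r = k ^ j * r := by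
    intro j
    induction j with
    | zero => simp
    | succ j ih =>
      rw [Function.iterate_succ_apply', ih, map_mul, map_pow, hkfix]
      have : phib W r = k * r := by rw [hk]; group
      rw [this, ← mul_assoc, ← pow_succ]
  have hrfin : (Set.range fun n : ℕ => (phib W)^[n] r).Finite := by
    have : (Set.range fun n : ℕ => (phib W)^[n] r) ⊆
        (fun p : FreeGroup A × FreeGroup A => p.1 * p.2⁻¹) ''
        ((Set.range fun n : ℕ => (phib W)^[n] s) ×ˢ (Set.range fun n : ℕ => (phib W)^[n] s')) := by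
      rintro _ ⟨n, rfl⟩
      refine ⟨((phib W)^[n] s, (phib W)^[n] s'), ⟨⟨n, rfl⟩, ⟨n, rfl⟩⟩, ?_⟩
      have hmul : ∀ (n : ℕ) (x y : FreeGroup A), (phib W)^[n] (x * y⁻¹) =
          (phib W)^[n] x * ((phib W)^[n] y)⁻¹ := by
        intro n x y
        induction n generalizing x y with
        | zero => rfl
        | succ n ih =>
          rw [Function.iterate_succ_apply, map_mul, map_inv, ih]; rfl
      rw [hr]
      exact (hmul n s s').symm
    exact ((hf.prod hf').image _).subset this
  have hk1 : k = 1 := by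
    by_contra hk1
    have hinj : Function.Injective fun n : ℕ => (phib W)^[n] r := by
      intro i j hij
      simp only [hiter] at hij
      exact free_pow_inj hk1 (mul_right_cancel hij)
    exact (Set.infinite_range_of_injective hinj) hrfin
  have : phib W r = k * r := by rw [hk]; group
  rw [this, hk1, one_mul]

/-- orbits of a translation leave a finite set -/
lemma exists_exit {κ : FreeGroup A} (hκ : κ ≠ 1) {E B : Set (FreeGroup A × A)} (hE : E.Finite)
    (h : ∀ e ∈ E, e ∈ B ∨ tr κ e ∈ B ∨ tr κ e ∈ E) {e : FreeGroup A × A} (he : e ∈ E) :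
    ∃ n : ℕ, tr (κ ^ n) e ∈ B := by
  by_contra hcon
  push Not at hcon
  have hall : ∀ n : ℕ, tr (κ ^ n) e ∈ E := by
    intro n
    induction n with
    | zero => simpa using he
    | succ n ih =>
      have h1 : tr (κ ^ (n + 1)) e = tr κ (tr (κ ^ n) e) := by
        rw [tr_tr, ← pow_succ']
      rcases h _ ih with h2 | h2 | h2
      · exact absurd h2 (hcon n)
      · rw [← h1] at h2; exact absurd h2 (hcon _)
      · rw [h1]; exact h2
  have hinj : Function.Injective fun n : ℕ => tr (κ ^ n) e := by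
    intro i j hij
    simp only [tr, Prod.mk.injEq, and_true] at hij
    exact free_pow_inj hκ (mul_right_cancel hij)
  exact (Set.infinite_range_of_injective hinj) (hE.subset (by rintro _ ⟨n, rfl⟩; exact hall n))

lemma simg_finite {E : Set (FreeGroup A × A)} (hE : E.Finite) : (simg W E).Finite :=
  hE.biUnion fun _ _ => edges_finite _ _

/-- One context with constant displacement. -/
lemma context_aux (α β : List (A × Bool)) (d : FreeGroup A) (K : Set (List (A × Bool)))
    (hK : ∀ w ∈ K, mk w = d) (h : ∀ w ∈ K, IsFix W (α ++ (w ++ β))) :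
    ∃ B : Set (FreeGroup A × A), B.Finite ∧ ∀ w ∈ K,
      (∀ e ∈ edges 1 w, e ∈ B ∨ ∃ f ∈ simg W (edges 1 w), e = tr (disp W (mk α)) f) ∧
      (∀ f ∈ simg W (edges 1 w), tr (disp W (mk α)) f ∈ B ∨
        tr (disp W (mk α)) f ∈ edges 1 w) := by
  set s : FreeGroup A := mk α with hs
  set B₀ := (edges 1 α ∪ edges (s * d) β) ∪ (simg W (edges 1 α) ∪ simg W (edges (s * d) β))
    with hB₀
  have hB₀f : B₀.Finite := ((edges_finite _ _).union (edges_finite _ _)).union
    ((simg_finite W (edges_finite _ _)).union (simg_finite W (edges_finite _ _)))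
  refine ⟨tr s⁻¹ '' B₀, hB₀f.image _, ?_⟩
  intro w hw
  have hfix := (h w hw).1
  have hsplit : edges (1 : FreeGroup A) (α ++ (w ++ β)) =
      edges 1 α ∪ (edges s w ∪ edges (s * d) β) := by
    rw [edges_append, edges_append, one_mul, hK w hw]
  rw [hsplit, simg_union, simg_union] at hfix
  have hsw : edges s w = tr s '' edges 1 w := edges_eq _ _
  have hphi : phib W s = s * disp W s := by unfold disp; rw [mul_inv_cancel_left]
  have hssw : simg W (edges s w) = tr s '' (tr (disp W s) '' simg W (edges 1 w)) := by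
    rw [hsw, simg_tr, hphi, Set.image_image]; simp only [tr_tr]
  constructor
  · intro e he
    have h1 : tr s e ∈ simg W (edges 1 α) ∪ (simg W (edges s w) ∪ simg W (edges (s * d) β)) := by
      rw [hfix]; right; left; rw [hsw]; exact ⟨e, he, rfl⟩
    rcases h1 with h1 | h1 | h1
    · left; exact ⟨tr s e, Or.inr (Or.inl h1), by rw [tr_tr, inv_mul_cancel, tr_one]⟩
    · right
      rw [hssw] at h1
      obtain ⟨_, ⟨f, hf, rfl⟩, h2⟩ := h1
      exact ⟨f, hf, (tr_injective _ h2).symm⟩
    · left; exact ⟨tr s e, Or.inr (Or.inr h1), by rw [tr_tr, inv_mul_cancel, tr_one]⟩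
  · intro f hf
    have h1 : tr s (tr (disp W s) f) ∈ edges 1 α ∪ (edges s w ∪ edges (s * d) β) := by
      rw [← hfix]; right; left; rw [hssw]; exact ⟨_, ⟨f, hf, rfl⟩, rfl⟩
    rcases h1 with h1 | h1 | h1
    · left; exact ⟨_, Or.inl (Or.inl h1), by rw [tr_tr, inv_mul_cancel, tr_one]⟩
    · right
      rw [hsw] at h1
      obtain ⟨e, he, h2⟩ := h1
      rw [← tr_injective _ h2]; exact he
    · left; exact ⟨_, Or.inl (Or.inr h1), by rw [tr_tr, inv_mul_cancel, tr_one]⟩

/-- The dichotomy. -/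
theorem dichotomy (K : Set (List (A × Bool))) :
    (∃ c, ∀ α β, (∀ w ∈ K, IsFix W (α ++ (w ++ β))) → disp W (mk α) = c) ∨
    (∃ M : Set (FreeGroup A × A), M.Finite ∧ ∀ w ∈ K, edges 1 w ⊆ M) := by
  by_cases hcon : ∃ c, ∀ α β, (∀ w ∈ K, IsFix W (α ++ (w ++ β))) → disp W (mk α) = c
  · exact Or.inl hcon
  right
  -- two contexts with different displacement
  obtain ⟨α, β, α', β', hctx, hctx', hne⟩ : ∃ α β α' β',
      (∀ w ∈ K, IsFix W (α ++ (w ++ β))) ∧ (∀ w ∈ K, IsFix W (α' ++ (w ++ β'))) ∧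
        disp W (mk α) ≠ disp W (mk α') := by
    by_contra hno
    push Not at hno
    apply hcon
    by_cases hex : ∃ α β, ∀ w ∈ K, IsFix W (α ++ (w ++ β))
    · obtain ⟨α, β, h⟩ := hex
      exact ⟨disp W (mk α), fun α' β' h' => hno α' β' α β h' h⟩
    · push Not at hex
      refine ⟨1, fun α β h => ?_⟩
      obtain ⟨w, hw, h2⟩ := hex α β
      exact absurd (h w hw) h2
  -- constant displacement of the words
  have hconst : ∀ w₁ ∈ K, ∀ w₂ ∈ K, (mk w₁ : FreeGroup A) = mk w₂ := by
    intro w₁ h₁ w₂ h₂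
    by_contra hw
    apply hne
    have hh : (mk w₁ : FreeGroup A) * (mk w₂)⁻¹ ≠ 1 := fun h => hw (mul_inv_eq_one.1 h)
    have aux : ∀ γ δ : List (A × Bool), (∀ w ∈ K, IsFix W (γ ++ (w ++ δ))) →
        phib W (mk γ * (mk w₁ * (mk w₂)⁻¹) * (mk γ)⁻¹) =
          mk γ * (mk w₁ * (mk w₂)⁻¹) * (mk γ)⁻¹ := by
      intro γ δ h
      have e1 := (h w₁ h₁).2
      have e2 := (h w₂ h₂).2
      have : (mk γ : FreeGroup A) * (mk w₁ * (mk w₂)⁻¹) * (mk γ)⁻¹ =
          mk (γ ++ (w₁ ++ δ)) * (mk (γ ++ (w₂ ++ δ)))⁻¹ := by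
        rw [← mul_mk, ← mul_mk, ← mul_mk, ← mul_mk]; group
      rw [this, map_mul, map_inv, e1, e2]
    exact disp_eq_of_conj W hh (aux α β hctx) (aux α' β' hctx')
      (orbit_finite W (hctx w₁ h₁) ((mem_vlist _ _).2 ⟨α, w₁ ++ β, rfl, rfl⟩))
      (orbit_finite W (hctx' w₁ h₁) ((mem_vlist _ _).2 ⟨α', w₁ ++ β', rfl, rfl⟩))
  rcases K.eq_empty_or_nonempty with rfl | ⟨w₀, hw₀⟩
  · exact ⟨∅, Set.finite_empty, fun w hw => absurd hw (Set.notMem_empty _)⟩
  have hd : ∀ w ∈ K, (mk w : FreeGroup A) = mk w₀ := fun w hw => hconst w hw w₀ hw₀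
  obtain ⟨B₁, hB₁, hb₁⟩ := context_aux W α β (mk w₀) K hd hctx
  obtain ⟨B₂, hB₂, hb₂⟩ := context_aux W α' β' (mk w₀) K hd hctx'
  set c := disp W (mk α) with hc
  set c' := disp W (mk α') with hc'
  set κ := c * c'⁻¹ with hκ
  have hκ1 : κ ≠ 1 := fun h => hne (mul_inv_eq_one.1 h)
  set B := B₁ ∪ B₂ with hB
  have hBf : B.Finite := hB₁.union hB₂
  have hfwd : ∀ w ∈ K, ∀ e ∈ edges 1 w, e ∈ B ∨ tr κ e ∈ B ∨ tr κ e ∈ edges 1 w := by
    intro w hw e he
    rcases (hb₂ w hw).1 e he with h | ⟨f, hf, rfl⟩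
    · left; exact Or.inr h
    · have : tr κ (tr c' f) = tr c f := by rw [tr_tr, hκ, inv_mul_cancel_right]
      rw [this]
      rcases (hb₁ w hw).2 f hf with h | h
      · right; left; exact Or.inl h
      · right; right; exact h
  have hbwd : ∀ w ∈ K, ∀ e ∈ edges 1 w, e ∈ B ∨ tr κ⁻¹ e ∈ B ∨ tr κ⁻¹ e ∈ edges 1 w := by
    intro w hw e he
    rcases (hb₁ w hw).1 e he with h | ⟨f, hf, rfl⟩
    · left; exact Or.inl h
    · have : tr κ⁻¹ (tr c f) = tr c' f := by
        rw [tr_tr, hκ, mul_inv_rev, inv_inv, inv_mul_cancel_right]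
      rw [this]
      rcases (hb₂ w hw).2 f hf with h | h
      · right; left; exact Or.inr h
      · right; right; exact h
  have hinj : ∀ b : FreeGroup A × A, Function.Injective fun n : ℕ => tr (κ ^ n) b := by
    intro b i j hij
    simp only [tr, Prod.mk.injEq, and_true] at hij
    exact free_pow_inj hκ1 (mul_right_cancel hij)
  refine ⟨⋃ b ∈ B, ⋃ m ∈ {m : ℕ | tr (κ ^ m) b ∈ B}, ⋃ i ∈ {i : ℕ | i ≤ m}, {tr (κ ^ i) b},
    ?_, ?_⟩
  · apply hBf.biUnion
    intro b _
    apply Set.Finite.biUnion (hBf.preimage (hinj b).injOn)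
    intro m _
    exact (Set.finite_le_nat m).biUnion fun i _ => Set.finite_singleton _
  · intro w hw e he
    obtain ⟨n, hn⟩ := exists_exit hκ1 (edges_finite 1 w) (hfwd w hw) he
    obtain ⟨n', hn'⟩ := exists_exit (inv_ne_one.2 hκ1) (edges_finite 1 w) (hbwd w hw) he
    simp only [Set.mem_iUnion]
    refine ⟨tr (κ⁻¹ ^ n') e, hn', n + n', ?_, n', ?_, ?_⟩
    · show tr (κ ^ (n + n')) (tr (κ⁻¹ ^ n') e) ∈ B
      rw [tr_tr, pow_add, inv_pow, mul_inv_cancel_right]; exact hn
    · show n' ≤ n + n'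
      omega
    · rw [Set.mem_singleton_iff, tr_tr, inv_pow, mul_inv_cancel, tr_one]

end Pool.Agent.Helper1.FIM
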