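import Mathlib

/-!
Free inverse monoids, rational and context-free subsets, fixed points.
-/

namespace Pool.Agent.Helper1.FIM

universe u

/-- The formal inverse of a word over the doubled alphabet `A × Bool`; the letter `(a, true)` is
`a` and `(a, false)` is the formal inverse of `a`. -/
def invWord {A : Type u} (w : FreeMonoid (A × Bool)) : FreeMonoid (A × Bool) :=
  FreeMonoid.ofList ((FreeMonoid.toList w).reverse.map fun p => (p.1, !p.2))

/-- The pairs of words generating the Wagner congruence. -/
inductive WagnerRel (A : Type u) : FreeMonoid (A × Bool) → FreeMonoid (A × Bool) → Prop
  | regular (x : FreeMonoid (A × Bool)) : WagnerRel A (x * invWord x * x) x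
  | commute (x y : FreeMonoid (A × Bool)) :
      WagnerRel A (x * invWord x * (y * invWord y)) (y * invWord y * (x * invWord x))

/-- The free inverse monoid on `A`: the quotient of the free monoid on `A × Bool` by the
congruence generated by `WagnerRel A`. -/
abbrev FreeInverseMonoid (A : Type u) : Type u := (conGen (WagnerRel A)).Quotient

/-- The canonical map from words to the free inverse monoid. -/
def proj {A : Type u} (w : List (A × Bool)) : FreeInverseMonoid A :=
  (conGen (WagnerRel A)).mk' (FreeMonoid.ofList w)

/-- A subset of the free inverse monoid is rational if it is the image of a regular language. -/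
def IsRationalSubset {A : Type u} (X : Set (FreeInverseMonoid A)) : Prop :=
  ∃ L : Language (A × Bool), L.IsRegular ∧ X = {x | ∃ w ∈ L, proj w = x}

/-- A subset of the free inverse monoid is context-free if it is the image of a context-free
language. -/
def IsContextFreeSubset {A : Type u} (X : Set (FreeInverseMonoid A)) : Prop :=
  ∃ L : Language (A × Bool), L.IsContextFree ∧ X = {x | ∃ w ∈ L, proj w = x}

/-- The fixed-point set of an endomorphism of the free inverse monoid. -/
def fixedPoints {A : Type u} (φ : FreeInverseMonoid A →* FreeInverseMonoid A) :
    Set (FreeInverseMonoid A) :=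
  {x | φ x = x}

end Pool.Agent.Helper1.FIM
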