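import Pool.Agent.Helper1.FIM.Munn

/-!
Endomorphisms of the free inverse monoid in terms of words.
-/

namespace Pool.Agent.Helper1.FIM

open FreeGroup hiding map_mul map_inv map_one

universe u
variable {A : Type u}

/-- uniqueness of inverses in the free inverse monoid -/
lemma proj_inv_unique {x y : List (A × Bool)} (h1 : proj x * proj y * proj x = proj x)
    (h2 : proj y * proj x * proj y = proj y) : proj y = proj (linv x) := by
  rw [← proj_append, ← proj_append] at h1 h2
  obtain ⟨e1, m1⟩ := edges_of_proj_eq h1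
  obtain ⟨e2, -⟩ := edges_of_proj_eq h2
  have hm : (mk y : FreeGroup A) = (mk x)⁻¹ := by
    rw [← mul_mk, ← mul_mk] at m1
    have : (mk x : FreeGroup A) * mk y = 1 := by
      have := mul_right_cancel (m1.trans (one_mul _).symm)
      exact this
    exact eq_inv_of_mul_eq_one_right this
  apply proj_eq_of_edges _ (by rw [mk_linv, hm])
  have hlin : edges (1 : FreeGroup A) (linv x) = edges (mk y) x := by
    have := edges_linv ((mk x : FreeGroup A)⁻¹) x
    rw [inv_mul_cancel] at this
    rw [this, hm]
  rw [hlin]
  apply Set.Subset.antisymm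
  · have h3 : edges (mk x : FreeGroup A) y ⊆ edges 1 x := by
      rw [edges_append, edges_append, one_mul] at e1
      intro e he
      rw [← e1]
      exact Or.inl (Or.inr he)
    have h4 : edges (mk x : FreeGroup A) y = tr (mk x) '' edges 1 y := edges_eq _ _
    have h5 : edges (mk y : FreeGroup A) x = tr (mk y) '' edges 1 x := edges_eq _ _
    rw [h4] at h3
    rw [h5]
    intro e he
    refine ⟨tr (mk x) e, h3 ⟨e, he, rfl⟩, ?_⟩
    rw [tr_tr, hm, inv_mul_cancel, tr_one]
  · rw [edges_append, edges_append, one_mul] at e2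
    intro e he
    rw [← e2]
    exact Or.inl (Or.inr he)

section words

variable (W : A → List (A × Bool))

/-- Image of a letter. -/
def letterImg (x : A × Bool) : List (A × Bool) := if x.2 then W x.1 else linv (W x.1)

/-- The lift to words of an endomorphism with images `W a` of the letters. -/
def Phi (w : List (A × Bool)) : List (A × Bool) := w.flatMap (letterImg W)

@[simp] lemma Phi_nil : Phi W [] = [] := rfl
lemma Phi_append (v w : List (A × Bool)) : Phi W (v ++ w) = Phi W v ++ Phi W w := by
  simp [Phi]
lemma Phi_cons (x : A × Bool) (w : List (A × Bool)) :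
    Phi W (x :: w) = letterImg W x ++ Phi W w := by
  simp [Phi]

/-- The induced endomorphism of the free group. -/
def phib : FreeGroup A →* FreeGroup A := FreeGroup.lift fun a => mk (W a)

lemma mk_false (a : A) : (mk [(a, false)] : FreeGroup A) = (of a)⁻¹ := by
  rw [of, inv_mk]; rfl

lemma mk_letterImg (x : A × Bool) : (mk (letterImg W x) : FreeGroup A) = phib W (mk [x]) := by
  obtain ⟨a, b⟩ := x
  cases b
  · rw [mk_false, map_inv]
    simp [letterImg, phib]
  · have : (mk [(a, true)] : FreeGroup A) = of a := rfl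
    rw [this]
    simp [letterImg, phib]

lemma mk_Phi (w : List (A × Bool)) : (mk (Phi W w) : FreeGroup A) = phib W (mk w) := by
  induction w with
  | nil => simp [← FreeGroup.one_eq_mk]
  | cons x w ih =>
    rw [Phi_cons, ← mul_mk, ih, mk_letterImg, ← map_mul, mul_mk]
    rfl

/-- Image of an edge. -/
def eimg (e : FreeGroup A × A) : Set (FreeGroup A × A) := edges (phib W e.1) (W e.2)

/-- Image of a set of edges. -/
def simg (E : Set (FreeGroup A × A)) : Set (FreeGroup A × A) := ⋃ e ∈ E, eimg W e

lemma mem_simg {E : Set (FreeGroup A × A)} {f : FreeGroup A × A} :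
    f ∈ simg W E ↔ ∃ e ∈ E, f ∈ eimg W e := by
  simp [simg]

lemma simg_mono {E F : Set (FreeGroup A × A)} (h : E ⊆ F) : simg W E ⊆ simg W F := by
  intro f hf
  obtain ⟨e, he, hf⟩ := (mem_simg W).1 hf
  exact (mem_simg W).2 ⟨e, h he, hf⟩

lemma simg_union (E F : Set (FreeGroup A × A)) : simg W (E ∪ F) = simg W E ∪ simg W F := by
  ext f
  simp only [mem_simg, Set.mem_union]
  constructor
  · rintro ⟨e, he | he, h⟩
    · exact Or.inl ⟨e, he, h⟩
    · exact Or.inr ⟨e, he, h⟩
  · rintro (⟨e, he, h⟩ | ⟨e, he, h⟩)
    · exact ⟨e, Or.inl he, h⟩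
    · exact ⟨e, Or.inr he, h⟩

lemma simg_iUnion {ι : Sort*} (E : ι → Set (FreeGroup A × A)) :
    simg W (⋃ i, E i) = ⋃ i, simg W (E i) := by
  ext f
  simp only [mem_simg, Set.mem_iUnion]
  constructor
  · rintro ⟨e, ⟨i, hi⟩, h⟩; exact ⟨i, e, hi, h⟩
  · rintro ⟨i, e, hi, h⟩; exact ⟨e, ⟨i, hi⟩, h⟩

lemma edges_letterImg (g : FreeGroup A) (x : A × Bool) :
    edges (phib W g) (letterImg W x) = eimg W (ledge g x) := by
  obtain ⟨a, b⟩ := x
  cases b
  · simp only [letterImg, ledge, eimg, Bool.false_eq_true, if_false]
    have : phib W g = phib W (g * mk [(a, false)]) * mk (W a) := by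
      have h2 : phib W (of a) = mk (W a) := by simp [phib]
      rw [mk_false, map_mul, map_inv, h2, inv_mul_cancel_right]
    conv_lhs => rw [this]
    rw [edges_linv]
  · simp only [letterImg, ledge, eimg, if_true]

lemma edges_Phi (g : FreeGroup A) (w : List (A × Bool)) :
    edges (phib W g) (Phi W w) = simg W (edges g w) := by
  induction w generalizing g with
  | nil => simp [simg]
  | cons x w ih =>
    rw [Phi_cons, edges_append, edges_letterImg, mk_letterImg, ← map_mul, ih, edges_cons]
    simp [simg]

lemma eimg_tr (h : FreeGroup A) (e : FreeGroup A × A) :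
    eimg W (tr h e) = tr (phib W h) '' eimg W e := by
  simp only [eimg, tr]
  rw [map_mul, edges_translate]
  rfl

lemma simg_tr (h : FreeGroup A) (E : Set (FreeGroup A × A)) :
    simg W (tr h '' E) = tr (phib W h) '' simg W E := by
  ext f
  simp only [mem_simg, Set.mem_image]
  constructor
  · rintro ⟨e, ⟨e', he', rfl⟩, hf⟩
    rw [eimg_tr] at hf
    obtain ⟨f', hf', rfl⟩ := hf
    exact ⟨f', ⟨e', he', hf'⟩, rfl⟩
  · rintro ⟨f', ⟨e', he', hf'⟩, rfl⟩
    exact ⟨tr h e', ⟨e', he', rfl⟩, by rw [eimg_tr]; exact ⟨f', hf', rfl⟩⟩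

/-- A word representing a fixed point. -/
def IsFix (w : List (A × Bool)) : Prop :=
  simg W (edges 1 w) = edges 1 w ∧ phib W (mk w) = mk w

end words

/-- Choice of words for the images of the letters. -/
lemma exists_words (φ : FreeInverseMonoid A →* FreeInverseMonoid A) :
    ∃ W : A → List (A × Bool), ∀ w, φ (proj w) = proj (Phi W w) := by
  choose W hW using fun a : A => proj_surjective (φ (proj [(a, true)]))
  refine ⟨W, ?_⟩
  have hfalse : ∀ a : A, φ (proj [(a, false)]) = proj (linv (W a)) := by
    intro a
    obtain ⟨y, hy⟩ := proj_surjective (φ (proj [(a, false)]))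
    rw [← hy]
    have hr : proj [(a, true)] * proj [(a, false)] * proj [(a, true)] = proj [(a, true)] := by
      have := proj_regular [(a, true)]
      simpa using this
    have hr2 : proj [(a, false)] * proj [(a, true)] * proj [(a, false)] = proj [(a, false)] := by
      have := proj_regular [(a, false)]
      simpa using this
    apply proj_inv_unique
    · rw [hW, hy, ← map_mul, ← map_mul, hr]
    · rw [hW, hy, ← map_mul, ← map_mul, hr2]
  intro w
  induction w with
  | nil => simp
  | cons x w ih =>
    rw [Phi_cons, proj_append, ← List.singleton_append, proj_append, map_mul, ih]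
    congr 1
    obtain ⟨a, b⟩ := x
    cases b
    · simpa [letterImg] using hfalse a
    · simpa [letterImg] using (hW a).symm

lemma isFix_iff (φ : FreeInverseMonoid A →* FreeInverseMonoid A) (W : A → List (A × Bool))
    (hW : ∀ w, φ (proj w) = proj (Phi W w)) (w : List (A × Bool)) :
    proj w ∈ fixedPoints φ ↔ IsFix W w := by
  have hE : edges (1 : FreeGroup A) (Phi W w) = simg W (edges 1 w) := by
    have := edges_Phi W 1 w
    rwa [map_one] at this
  show φ (proj w) = proj w ↔ _
  rw [hW]
  constructor
  · intro h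
    obtain ⟨h1, h2⟩ := edges_of_proj_eq h
    exact ⟨by rw [← hE, h1], by rw [← mk_Phi, h2]⟩
  · rintro ⟨h1, h2⟩
    exact proj_eq_of_edges (by rw [hE, h1]) (by rw [mk_Phi, h2])

/-- The displacement of a vertex. -/
def disp (W : A → List (A × Bool)) (v : FreeGroup A) : FreeGroup A := v⁻¹ * phib W v

lemma disp_mul (W : A → List (A × Bool)) (v y : FreeGroup A) :
    disp W (v * y) = y⁻¹ * disp W v * phib W y := by
  simp [disp, mul_assoc]

lemma disp_eq_iff (W : A → List (A × Bool)) (v w : FreeGroup A) :
    disp W v = disp W w ↔ phib W (v * w⁻¹) = v * w⁻¹ := by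
  unfold disp
  rw [map_mul, map_inv]
  constructor
  · intro h
    have : phib W v = v * (w⁻¹ * phib W w) := by rw [← h]; group
    rw [this]; group
  · intro h
    have : phib W v = v * w⁻¹ * phib W w := by
      rw [← h]; group
    rw [this]; group

end Pool.Agent.Helper1.FIM
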