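import Pool.Agent.Helper1.FIM.Context

/-!
Context-free languages: derivation trees and the bound on displacements.
-/

namespace Pool.Agent.Helper1.FIM

open FreeGroup hiding map_mul map_inv map_one

universe u

section grammar

variable {T : Type u} (g : ContextFreeGrammar T)

/-- Derivation forests. -/
inductive Yields : List (Symbol T g.NT) → List T → Prop
  | nil : Yields [] []
  | term (a : T) (γ : List (Symbol T g.NT)) (w : List T) (h : Yields γ w) :
      Yields (Symbol.terminal a :: γ) (a :: w)
  | nonterm (r : ContextFreeRule T g.NT) (hr : r ∈ g.rules) (γ : List (Symbol T g.NT))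
      (w₁ w₂ : List T) (h₁ : Yields r.output w₁) (h₂ : Yields γ w₂) :
      Yields (Symbol.nonterminal r.input :: γ) (w₁ ++ w₂)

variable {g}

lemma Yields.append {γ δ : List (Symbol T g.NT)} {v w : List T} (h : Yields g γ v)
    (h' : Yields g δ w) : Yields g (γ ++ δ) (v ++ w) := by
  induction h with
  | nil => exact h'
  | term a γ v h ih => exact Yields.term a _ _ ih
  | nonterm r hr γ v₁ v₂ h₁ h₂ ih₁ ih₂ =>
    rw [List.append_assoc]
    exact Yields.nonterm r hr _ _ _ h₁ ih₂

lemma Yields.split {γ δ : List (Symbol T g.NT)} {w : List T} (h : Yields g (γ ++ δ) w) :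
    ∃ w₁ w₂, w = w₁ ++ w₂ ∧ Yields g γ w₁ ∧ Yields g δ w₂ := by
  induction γ generalizing w with
  | nil => exact ⟨[], w, rfl, Yields.nil, h⟩
  | cons X γ ih =>
    rw [List.cons_append] at h
    cases h with
    | term a _ w h =>
      obtain ⟨w₁, w₂, rfl, h1, h2⟩ := ih h
      exact ⟨a :: w₁, w₂, rfl, Yields.term _ _ _ h1, h2⟩
    | nonterm r hr _ v₁ v₂ h₁ h₂ =>
      obtain ⟨w₁, w₂, rfl, h1, h2⟩ := ih h₂
      exact ⟨v₁ ++ w₁, w₂, by rw [List.append_assoc], Yields.nonterm r hr _ _ _ h₁ h1, h2⟩

lemma Yields.terminals (w : List T) : Yields g (w.map Symbol.terminal) w := by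
  induction w with
  | nil => exact Yields.nil
  | cons a w ih => exact Yields.term a _ _ ih

lemma Yields.of_produces {γ δ : List (Symbol T g.NT)} {w : List T} (hp : g.Produces γ δ)
    (h : Yields g δ w) : Yields g γ w := by
  obtain ⟨r, hr, hrw⟩ := hp
  obtain ⟨p, q, rfl, rfl⟩ := hrw.exists_parts
  obtain ⟨w₁, w₂, rfl, h1, h2⟩ := h.split
  obtain ⟨w₃, w₄, rfl, h3, h4⟩ := h1.split
  rw [List.append_assoc, List.append_assoc]
  apply h3.append
  exact Yields.nonterm r hr q w₄ w₂ h4 h2

lemma Yields.of_derives {γ : List (Symbol T g.NT)} {w : List T}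
    (h : g.Derives γ (w.map Symbol.terminal)) : Yields g γ w := by
  induction h using Relation.ReflTransGen.head_induction_on with
  | refl => exact Yields.terminals w
  | head h' _ ih => exact ih.of_produces h'

lemma Yields.derives {γ : List (Symbol T g.NT)} {w : List T} (h : Yields g γ w) :
    g.Derives γ (w.map Symbol.terminal) := by
  induction h with
  | nil => exact ContextFreeGrammar.Derives.refl _
  | term a γ w h ih =>
    have := ih.append_left [Symbol.terminal a]
    simpa using this
  | nonterm r hr γ v₁ v₂ h₁ h₂ ih₁ ih₂ =>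
    rw [List.map_append]
    have h3 : g.Derives (Symbol.nonterminal r.input :: γ) (r.output ++ γ) :=
      ContextFreeGrammar.Produces.single ⟨r, hr, ContextFreeRule.Rewrites.head γ⟩
    exact (h3.trans (ih₁.append_right γ)).trans (ih₂.append_left _)

end grammar

variable {A : Type u} (W : A → List (A × Bool))

section main

variable (g : ContextFreeGrammar (A × Bool))

/-- Words yielded by a sentential form. -/
def Lang (γ : List (Symbol (A × Bool) g.NT)) : Set (List (A × Bool)) := {w | Yields g γ w}

/-- The contexts of a sentential form. -/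
def Ctx (γ : List (Symbol (A × Bool) g.NT)) (α β : List (A × Bool)) : Prop :=
  ∀ w ∈ Lang g γ, IsFix W (α ++ (w ++ β))

/-- The relevant sentential forms: suffixes of right-hand sides, and the initial one. -/
def Forms : Set (List (Symbol (A × Bool) g.NT)) :=
  {γ | γ <:+ [Symbol.nonterminal g.initial]} ∪ ⋃ r ∈ (↑g.rules : Set (ContextFreeRule (A × Bool) g.NT)),
    {γ | γ <:+ r.output}

lemma forms_finite : (Forms g).Finite := by
  have hs : ∀ l : List (Symbol (A × Bool) g.NT), {γ | γ <:+ l}.Finite := by
    intro l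
    have : {γ | γ <:+ l} = {γ | γ ∈ l.tails} := by
      ext γ; simp only [Set.mem_ofPred_eq, List.mem_tails]
    rw [this]
    exact List.finite_toSet _
  exact (hs _).union (g.rules.finite_toSet.biUnion fun r _ => hs _)

lemma forms_tail {X : Symbol (A × Bool) g.NT} {γ} (h : X :: γ ∈ Forms g) : γ ∈ Forms g := by
  rcases h with h | h
  · exact Or.inl ((List.suffix_cons X γ).trans h)
  · simp only [Set.mem_iUnion] at h
    obtain ⟨r, hr, h⟩ := h
    right
    simp only [Set.mem_iUnion]
    exact ⟨r, hr, (List.suffix_cons X γ).trans h⟩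

lemma forms_rule {r : ContextFreeRule (A × Bool) g.NT} (hr : r ∈ g.rules) :
    r.output ∈ Forms g := by
  right
  simp only [Set.mem_iUnion]
  exact ⟨r, hr, List.suffix_refl _⟩

/-- Boundedness of displacements along derivations. -/
theorem exists_finite_disp [Finite A] (hg : ∀ w ∈ g.language, IsFix W w) :
    ∃ C : Set (FreeGroup A), C.Finite ∧ ∀ w ∈ g.language, ∀ v ∈ vlist w, disp W v ∈ C := by
  classical
  -- classification
  have hdich := fun γ => dichotomy W (Lang g γ)
  let typeA : List (Symbol (A × Bool) g.NT) → Prop := fun γ =>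
    ∃ c, ∀ α β, (∀ w ∈ Lang g γ, IsFix W (α ++ (w ++ β))) → disp W (mk α) = c
  let cval : List (Symbol (A × Bool) g.NT) → FreeGroup A := fun γ =>
    if h : typeA γ then h.choose else 1
  have hcval : ∀ γ, typeA γ → ∀ α β, Ctx W g γ α β → disp W (mk α) = cval γ := by
    intro γ hγ α β h
    simp only [cval, dif_pos hγ]
    exact hγ.choose_spec α β h
  let Mval : List (Symbol (A × Bool) g.NT) → Set (FreeGroup A × A) := fun γ =>
    if h : (∃ M : Set (FreeGroup A × A), M.Finite ∧ ∀ w ∈ Lang g γ, edges 1 w ⊆ M) then h.choose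
    else ∅
  have hMfin : ∀ γ, (Mval γ).Finite := by
    intro γ
    simp only [Mval]
    split
    · rename_i h; exact h.choose_spec.1
    · exact Set.finite_empty
  have hMval : ∀ γ, ¬ typeA γ → ∀ w ∈ Lang g γ, edges 1 w ⊆ Mval γ := by
    intro γ hγ w hw
    rcases hdich γ with h | h
    · exact absurd h hγ
    · simp only [Mval, dif_pos h]
      exact h.choose_spec.2 w hw
  -- canonical words of nonterminals
  let can : ContextFreeRule (A × Bool) g.NT → List (A × Bool) := fun r =>
    if h : ∃ w, Yields g r.output w then h.choose else []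
  have hcan : ∀ r, ∀ w, Yields g r.output w → Yields g r.output (can r) := by
    intro r w hw
    have h : ∃ w, Yields g r.output w := ⟨w, hw⟩
    simp only [can, dif_pos h]
    exact h.choose_spec
  -- finite sets
  let Ca : Set (FreeGroup A) := cval '' Forms g
  have hCa : Ca.Finite := (forms_finite g).image _
  let C1 : Set (FreeGroup A) := ⋃ r ∈ (↑g.rules : Set (ContextFreeRule (A × Bool) g.NT)),
    (fun c => (mk (can r))⁻¹ * c * phib W (mk (can r))) '' Ca
  have hC1 : C1.Finite := g.rules.finite_toSet.biUnion fun r _ => hCa.image _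
  let C2 : Set (FreeGroup A) := ⋃ x : A × Bool,
    (fun c => (mk [x])⁻¹ * c * phib W (mk [x])) '' Ca
  have hC2 : C2.Finite := Set.finite_iUnion fun x => hCa.image _
  let Cs : Set (FreeGroup A) := insert 1 (Ca ∪ (C1 ∪ C2))
  have hCs : Cs.Finite := (hCa.union (hC1.union hC2)).insert 1
  let Vert : Set (FreeGroup A × A) → Set (FreeGroup A) := fun M =>
    insert 1 (Prod.fst '' M ∪ (fun e : FreeGroup A × A => e.1 * of e.2) '' M)
  have hVert : ∀ M, M.Finite → (Vert M).Finite := fun M hM =>
    ((hM.image _).union (hM.image _)).insert 1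
  let C3 : Set (FreeGroup A) := ⋃ γ ∈ Forms g, ⋃ v ∈ Vert (Mval γ),
    (fun c => v⁻¹ * c * phib W v) '' Cs
  have hC3 : C3.Finite := (forms_finite g).biUnion fun γ _ =>
    (hVert _ (hMfin γ)).biUnion fun v _ => hCs.image _
  -- main induction
  have main : ∀ γ w, Yields g γ w → γ ∈ Forms g → ∀ α β, Ctx W g γ α β → disp W (mk α) ∈ Cs →
      ∀ w₁ w₂, w = w₁ ++ w₂ → disp W (mk α * mk w₁) ∈ Cs ∪ C3 := by
    intro γ w hy
    have typeB : ∀ γ w, Yields g γ w → γ ∈ Forms g → ¬ typeA γ →
        ∀ α : List (A × Bool), disp W (mk α) ∈ Cs →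
        ∀ w₁ w₂, w = w₁ ++ w₂ → disp W (mk α * mk w₁) ∈ Cs ∪ C3 := by
      intro γ w hy hγ hA α hα w₁ w₂ hw
      right
      have hv : (mk w₁ : FreeGroup A) ∈ Vert (Mval γ) := by
        have h1 := (visited_iff 1 (mk w₁) w).1 ⟨w₁, w₂, hw, by rw [one_mul]⟩
        rcases h1 with h1 | ⟨e, he, h2⟩
        · exact Or.inl h1
        · have he' := hMval γ hA w hy he
          rcases h2 with h2 | h2
          · exact Or.inr (Or.inl ⟨e, he', h2.symm⟩)
          · exact Or.inr (Or.inr ⟨e, he', h2.symm⟩)
      simp only [C3, Set.mem_iUnion]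
      refine ⟨γ, hγ, mk w₁, hv, disp W (mk α), hα, ?_⟩
      rw [disp_mul]
    induction hy with
    | nil =>
      intro hγ α β hctx hα w₁ w₂ hw
      obtain ⟨rfl, rfl⟩ := List.append_eq_nil_iff.1 hw.symm
      rw [← FreeGroup.one_eq_mk, mul_one]
      exact Or.inl hα
    | term a γ w h ih =>
      intro hγ α β hctx hα w₁ w₂ hw
      by_cases hA : typeA (Symbol.terminal a :: γ)
      · cases w₁ with
        | nil => rw [← FreeGroup.one_eq_mk, mul_one]; exact Or.inl hα
        | cons b w₁ =>
          simp only [List.cons_append, List.cons.injEq] at hw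
          obtain ⟨rfl, hw⟩ := hw
          have hc := hcval _ hA α β hctx
          have hctx' : Ctx W g γ (α ++ [a]) β := by
            intro v hv
            have := hctx (a :: v) (Yields.term a γ v hv)
            simpa using this
          have hd : disp W (mk (α ++ [a])) ∈ Cs := by
            rw [← mul_mk, disp_mul, hc]
            right; right; right
            simp only [C2, Set.mem_iUnion]
            exact ⟨a, cval _, ⟨_, hγ, rfl⟩, rfl⟩
          have := ih (forms_tail g hγ) (α ++ [a]) β hctx' hd w₁ w₂ hw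
          rw [← mul_mk] at this
          rw [← List.singleton_append, ← mul_mk, ← mul_assoc]
          exact this
      · exact typeB _ _ (Yields.term a γ w h) hγ hA α hα w₁ w₂ hw
    | nonterm r hr γ v₁ v₂ h₁ h₂ ih₁ ih₂ =>
      intro hγ α β hctx hα w₁ w₂ hw
      by_cases hA : typeA (Symbol.nonterminal r.input :: γ)
      · have hc := hcval _ hA α β hctx
        rcases List.append_eq_append_iff.1 hw with ⟨z, hz1, hz2⟩ | ⟨z, hz1, hz2⟩
        · -- w₁ = v₁ ++ z
          have hctx' : Ctx W g γ (α ++ v₁) β := by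
            intro v hv
            have := hctx (v₁ ++ v) (Yields.nonterm r hr γ v₁ v h₁ hv)
            simpa using this
          have hd : disp W (mk (α ++ v₁)) ∈ Cs := by
            have e1 := (hctx (v₁ ++ v₂) (Yields.nonterm r hr γ v₁ v₂ h₁ h₂)).2
            have e2 := (hctx (can r ++ v₂) (Yields.nonterm r hr γ _ v₂ (hcan r v₁ h₁) h₂)).2
            have h3 : disp W (mk (α ++ v₁)) = disp W (mk (α ++ can r)) := by
              rw [disp_eq_iff]
              have : (mk (α ++ v₁) : FreeGroup A) * (mk (α ++ can r))⁻¹ =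
                  mk (α ++ (v₁ ++ v₂ ++ β)) * (mk (α ++ (can r ++ v₂ ++ β)))⁻¹ := by
                rw [← mul_mk, ← mul_mk, ← mul_mk, ← mul_mk, ← mul_mk, ← mul_mk, ← mul_mk,
                  ← mul_mk]; group
              rw [this, map_mul, map_inv, e1, e2]
            rw [h3, ← mul_mk, disp_mul, hc]
            right; right; left
            simp only [C1, Set.mem_iUnion]
            exact ⟨r, hr, cval _, ⟨_, hγ, rfl⟩, rfl⟩
          have := ih₂ (forms_tail g hγ) (α ++ v₁) β hctx' hd z w₂ hz2
          rw [← mul_mk] at this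
          rw [hz1, ← mul_mk, ← mul_assoc]
          exact this
        · -- v₁ = w₁ ++ z
          have hctx' : Ctx W g r.output α (v₂ ++ β) := by
            intro v hv
            have := hctx (v ++ v₂) (Yields.nonterm r hr γ v v₂ hv h₂)
            simpa using this
          exact ih₁ (forms_rule g hr) α (v₂ ++ β) hctx' hα w₁ z hz1
      · exact typeB _ _ (Yields.nonterm r hr γ v₁ v₂ h₁ h₂) hγ hA α hα w₁ w₂ hw
  refine ⟨Cs ∪ C3, hCs.union hC3, ?_⟩
  intro w hw v hv
  obtain ⟨w₁, w₂, hsp, rfl⟩ := (mem_vlist w v).1 hv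
  have hy : Yields g [Symbol.nonterminal g.initial] w := Yields.of_derives hw
  have hctx : Ctx W g [Symbol.nonterminal g.initial] [] [] := by
    intro w' hw'
    have : w' ∈ g.language := Yields.derives hw'
    simpa using hg w' this
  have hd : disp W (mk ([] : List (A × Bool))) ∈ Cs := by
    left
    rw [← FreeGroup.one_eq_mk]; simp [disp]
  have := main _ w hy (Or.inl (List.suffix_refl _)) [] [] hctx hd w₁ w₂ hsp
  rw [← FreeGroup.one_eq_mk, one_mul] at this
  exact this

end main

/-- Context-free implies rational. -/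
theorem rational_of_contextFree [Finite A] (φ : FreeInverseMonoid A →* FreeInverseMonoid A)
    (h : IsContextFreeSubset (fixedPoints φ)) : IsRationalSubset (fixedPoints φ) := by
  obtain ⟨W, hW⟩ := exists_words φ
  obtain ⟨L, ⟨g, rfl⟩, hL⟩ := h
  have hg : ∀ w ∈ g.language, IsFix W w := by
    intro w hw
    rw [← isFix_iff φ W hW, hL]
    exact ⟨w, hw, rfl⟩
  obtain ⟨C, hC, hCd⟩ := exists_finite_disp W g hg
  apply rational_of_finite_disp W φ hW hC
  intro w hw v hv
  have h1 : proj w ∈ fixedPoints φ := (isFix_iff φ W hW w).2 hw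
  rw [hL] at h1
  obtain ⟨w', hw', h2⟩ := h1
  obtain ⟨h3, h4⟩ := edges_of_proj_eq h2
  have h5 : v ∈ vlist w' := by
    rw [mem_vlist] at hv ⊢
    have e1 := visited_iff 1 v w
    have e2 := visited_iff 1 v w'
    simp only [one_mul] at e1 e2
    rw [e1] at hv
    rw [e2, h3]
    exact hv
  exact hCd w' hw' v h5

end Pool.Agent.Helper1.FIM
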