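import Pool.Agent.Helper1.FIM.Endo

/-!
Invariant subtrees of bounded size inside a fixed Munn tree.
-/

namespace Pool.Agent.Helper1.FIM

open FreeGroup hiding map_mul map_inv map_one

universe u
variable {A : Type u} (W : A → List (A × Bool))

/-- Iterated image of a set of edges. -/
def it (k : ℕ) (E : Set (FreeGroup A × A)) : Set (FreeGroup A × A) := (simg W)^[k] E

@[simp] lemma it_zero (E : Set (FreeGroup A × A)) : it W 0 E = E := rfl
lemma it_succ (k : ℕ) (E : Set (FreeGroup A × A)) : it W (k + 1) E = it W k (simg W E) := rfl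
lemma it_succ' (k : ℕ) (E : Set (FreeGroup A × A)) : it W (k + 1) E = simg W (it W k E) :=
  Function.iterate_succ_apply' _ _ _

lemma it_mono (k : ℕ) {E F : Set (FreeGroup A × A)} (h : E ⊆ F) : it W k E ⊆ it W k F := by
  induction k with
  | zero => exact h
  | succ k ih => rw [it_succ', it_succ']; exact simg_mono W ih

lemma it_fixed (k : ℕ) {E : Set (FreeGroup A × A)} (h : simg W E = E) : it W k E = E := by
  induction k with
  | zero => rfl
  | succ k ih => rw [it_succ', ih, h]

lemma it_tr (k : ℕ) {q : FreeGroup A} (hq : phib W q = q) (E : Set (FreeGroup A × A)) :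
    it W k (tr q '' E) = tr q '' it W k E := by
  induction k with
  | zero => rfl
  | succ k ih => rw [it_succ', ih, simg_tr, hq, ← it_succ']

/-- Edge is realized in a fixed tree with a given type. -/
def Realized (τ : FreeGroup A × A) : Prop :=
  ∃ w e, IsFix W w ∧ e ∈ edges 1 w ∧ disp W e.1 = τ.1 ∧ e.2 = τ.2

open Classical in
/-- Chosen word. -/
noncomputable def repw (τ : FreeGroup A × A) : List (A × Bool) :=
  if h : Realized W τ then h.choose else []

open Classical in
/-- Chosen edge. -/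
noncomputable def rep (τ : FreeGroup A × A) : FreeGroup A × A :=
  if h : Realized W τ then h.choose_spec.choose else τ

lemma rep_spec {τ : FreeGroup A × A} (h : Realized W τ) :
    IsFix W (repw W τ) ∧ rep W τ ∈ edges 1 (repw W τ) ∧ disp W (rep W τ).1 = τ.1 ∧
      (rep W τ).2 = τ.2 := by
  unfold repw rep
  rw [dif_pos h, dif_pos h]
  exact h.choose_spec.choose_spec

/-- Forward orbit of the representative. -/
noncomputable def Forb (τ : FreeGroup A × A) : Set (FreeGroup A × A) := ⋃ k, it W k {rep W τ}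

lemma Forb_finite {τ : FreeGroup A × A} (h : Realized W τ) : (Forb W τ).Finite := by
  obtain ⟨h1, h2, -, -⟩ := rep_spec W h
  apply (edges_finite 1 (repw W τ)).subset
  intro f hf
  simp only [Forb, Set.mem_iUnion] at hf
  obtain ⟨k, hk⟩ := hf
  have := it_mono W k (Set.singleton_subset_iff.2 h2) hk
  rwa [it_fixed W k h1.1] at this

lemma type_translate {w : List (A × Bool)} (hw : IsFix W w) {e : FreeGroup A × A}
    (he : e ∈ edges 1 w) :
    Realized W (disp W e.1, e.2) ∧
    phib W (e.1 * (rep W (disp W e.1, e.2)).1⁻¹) = e.1 * (rep W (disp W e.1, e.2)).1⁻¹ ∧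
    e = tr (e.1 * (rep W (disp W e.1, e.2)).1⁻¹) (rep W (disp W e.1, e.2)) := by
  have hr : Realized W (disp W e.1, e.2) := ⟨w, e, hw, he, rfl, rfl⟩
  obtain ⟨h1, h2, h3, h4⟩ := rep_spec W hr
  refine ⟨hr, (disp_eq_iff W _ _).1 h3.symm, ?_⟩
  ext
  · simp [tr]
  · simp [tr, h4]

/-- Ancestors of an edge in an invariant set. -/
def Anc (E : Set (FreeGroup A × A)) (e : FreeGroup A × A) : Set (FreeGroup A × A) :=
  {f | f ∈ E ∧ ∃ k, e ∈ it W k {f}}

/-- All descendants of all ancestors. -/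
def Zset (E : Set (FreeGroup A × A)) (e : FreeGroup A × A) : Set (FreeGroup A × A) :=
  ⋃ f ∈ Anc W E e, ⋃ k, it W k {f}

lemma mem_Zset {E : Set (FreeGroup A × A)} {e g : FreeGroup A × A} :
    g ∈ Zset W E e ↔ ∃ f ∈ Anc W E e, ∃ k, g ∈ it W k {f} := by
  simp [Zset]

lemma Zset_subset {E : Set (FreeGroup A × A)} (hE : simg W E = E) (e : FreeGroup A × A) :
    Zset W E e ⊆ E := by
  intro g hg
  obtain ⟨f, ⟨hf, -⟩, k, hk⟩ := (mem_Zset W).1 hg
  have := it_mono W k (Set.singleton_subset_iff.2 hf) hk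
  rwa [it_fixed W k hE] at this

lemma self_mem_Zset {E : Set (FreeGroup A × A)} {e : FreeGroup A × A} (he : e ∈ E) :
    e ∈ Zset W E e :=
  (mem_Zset W).2 ⟨e, ⟨he, 0, rfl⟩, 0, rfl⟩

lemma simg_Zset {E : Set (FreeGroup A × A)} (hE : simg W E = E) (e : FreeGroup A × A) :
    simg W (Zset W E e) = Zset W E e := by
  apply Set.Subset.antisymm
  · intro g hg
    obtain ⟨f, hf, hg⟩ := (mem_simg W).1 hg
    obtain ⟨f', hf', k, hk⟩ := (mem_Zset W).1 hf
    refine (mem_Zset W).2 ⟨f', hf', k + 1, ?_⟩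
    rw [it_succ']
    exact (mem_simg W).2 ⟨f, hk, hg⟩
  · intro g hg
    obtain ⟨f, hf, k, hk⟩ := (mem_Zset W).1 hg
    cases k with
    | zero =>
      have hgf : g = f := hk
      subst hgf
      have h1 : g ∈ simg W E := by rw [hE]; exact hf.1
      obtain ⟨f', hf', h2⟩ := (mem_simg W).1 h1
      obtain ⟨k, hk⟩ := hf.2
      have hsub : ({g} : Set _) ⊆ simg W {f'} := by
        rw [Set.singleton_subset_iff]
        exact (mem_simg W).2 ⟨f', rfl, h2⟩
      refine (mem_simg W).2 ⟨f', (mem_Zset W).2 ⟨f', ⟨hf', k + 1, ?_⟩, 0, rfl⟩, h2⟩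
      rw [it_succ]
      exact it_mono W k hsub hk
    | succ k =>
      rw [it_succ'] at hk
      obtain ⟨f', hf', h2⟩ := (mem_simg W).1 hk
      exact (mem_simg W).2 ⟨f', (mem_Zset W).2 ⟨f, hf, k, hf'⟩, h2⟩

/-! ### Geodesics -/

open Classical in
lemma geodesic_subset (y : List (A × Bool)) (g : FreeGroup A) :
    edges g (mk y : FreeGroup A).toWord ⊆ edges g y := by
  induction y using List.reverseRecOn with
  | nil => simp [← FreeGroup.one_eq_mk]
  | append_singleton y x ih =>
    rw [edges_append, ← mul_mk]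
    rcases toWord_mul_letter (mk y : FreeGroup A) x with h | ⟨r, h1, h2⟩
    · rw [h, edges_append, mk_toWord]
      exact Set.union_subset_union_left _ ih
    · rw [h2]
      rw [h1, edges_append] at ih
      exact fun e he => Or.inl (ih (Or.inl he))

open Classical in
lemma geodesic_between (y : List (A × Bool)) (g v₁ v₂ : FreeGroup A)
    (h₁ : ∃ y1 y2, y = y1 ++ y2 ∧ g * mk y1 = v₁) (h₂ : ∃ y1 y2, y = y1 ++ y2 ∧ g * mk y1 = v₂) :
    edges v₁ (v₁⁻¹ * v₂).toWord ⊆ edges g y := by
  obtain ⟨a1, b1, e1, rfl⟩ := h₁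
  obtain ⟨a2, b2, e2, rfl⟩ := h₂
  rw [e1] at e2
  rcases List.append_eq_append_iff.1 e2 with ⟨z, hz1, hz2⟩ | ⟨z, hz1, hz2⟩
  · -- a2 = a1 ++ z
    have : (g * mk a1)⁻¹ * (g * mk a2) = (mk z : FreeGroup A) := by
      rw [hz1, ← mul_mk]; group
    rw [this]
    refine (geodesic_subset z _).trans ?_
    rw [e1, hz2, edges_append, edges_append]
    exact fun e he => Or.inr (Or.inl he)
  · -- a1 = a2 ++ z
    have : (g * mk a1)⁻¹ * (g * mk a2) = (mk (linv z) : FreeGroup A) := by
      rw [hz1, ← mul_mk, mk_linv]; group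
    rw [this]
    refine (geodesic_subset (linv z) _).trans ?_
    have h3 : g * mk a1 = (g * mk a2) * mk z := by rw [hz1, ← mul_mk, mul_assoc]
    rw [h3, edges_linv, e1, hz1, edges_append, edges_append]
    exact fun e he => Or.inl (Or.inr he)

open Classical in
/-- The loop at `1` that visits the edge `(p,b)`. -/
noncomputable def loop1 (e : FreeGroup A × A) : List (A × Bool) :=
  e.1.toWord ++ ([(e.2, true), (e.2, false)] ++ linv e.1.toWord)

lemma mk_tf (b : A) : (mk [(b, true), (b, false)] : FreeGroup A) = 1 := by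
  have : (mk [(b, true)] : FreeGroup A) * mk [(b, false)] = 1 := by
    rw [mk_false]; exact mul_inv_cancel _
  rw [mul_mk] at this
  exact this

lemma mk_loop1 (e : FreeGroup A × A) : (mk (loop1 e) : FreeGroup A) = 1 := by
  classical
  unfold loop1
  rw [← mul_mk, ← mul_mk, mk_linv, mk_tf, one_mul, mul_inv_cancel]

open Classical in
lemma edges_loop1 (g : FreeGroup A) (e : FreeGroup A × A) :
    edges g (loop1 e) = edges g e.1.toWord ∪ {tr g e} := by
  unfold loop1
  rw [edges_append, edges_append, mk_tf, mul_one, edges_linv, mk_toWord]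
  have : edges (g * e.1) [(e.2, true), (e.2, false)] = {tr g e} := by
    rw [edges_cons, edges_cons, edges_nil]
    have h := ledge_back (g * e.1) (e.2, true)
    simp only [Bool.not_true] at h
    rw [h]
    simp [ledge, tr]
  rw [this, Set.union_comm {tr g e}, ← Set.union_assoc, Set.union_self]

/-- Concatenation of loops. -/
noncomputable def loops (l : List (FreeGroup A × A)) : List (A × Bool) := l.flatMap loop1

lemma mk_loops (l : List (FreeGroup A × A)) : (mk (loops l) : FreeGroup A) = 1 := by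
  induction l with
  | nil => simp [loops, ← FreeGroup.one_eq_mk]
  | cons e l ih =>
    have : loops (e :: l) = loop1 e ++ loops l := by simp [loops]
    rw [this, ← mul_mk, mk_loop1, ih, one_mul]

open Classical in
lemma mem_edges_loops (g : FreeGroup A) (l : List (FreeGroup A × A)) (f : FreeGroup A × A) :
    f ∈ edges g (loops l) ↔ ∃ e ∈ l, f ∈ edges g e.1.toWord ∨ f = tr g e := by
  induction l with
  | nil => simp [loops]
  | cons e l ih =>
    have : loops (e :: l) = loop1 e ++ loops l := by simp [loops]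
    rw [this, edges_append, mk_loop1, mul_one, Set.mem_union, ih, edges_loop1,
      Set.mem_union, Set.mem_singleton_iff]
    simp only [List.mem_cons, exists_eq_or_imp]

lemma visited_iff (g v : FreeGroup A) (y : List (A × Bool)) :
    (∃ y1 y2, y = y1 ++ y2 ∧ g * mk y1 = v) ↔ v = g ∨ ∃ e ∈ edges g y, IsEnd v e :=
  mem_vlist_iff_edges y g v

lemma isEnd_fst (e : FreeGroup A × A) : IsEnd e.1 e := Or.inl rfl

lemma it_edges (k : ℕ) (g : FreeGroup A) (y : List (A × Bool)) :
    ∃ g' y', it W k (edges g y) = edges g' y' := by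
  induction k with
  | zero => exact ⟨g, y, rfl⟩
  | succ k ih =>
    obtain ⟨g', y', h⟩ := ih
    exact ⟨phib W g', Phi W y', by rw [it_succ', h, edges_Phi]⟩

open Classical in
/-- The finite sets of relative positions. -/
noncomputable def G2 : Set (FreeGroup A × A) :=
  ⋃ τ ∈ {τ | Realized W τ}, ⋃ p ∈ Forb W τ, tr p.1⁻¹ '' Forb W τ

open Classical in
noncomputable def G4 : Set (FreeGroup A × A) :=
  (G2 W ∪ ⋃ x : A × Bool, tr (mk [x]) '' G2 W) ∪
    ⋃ p ∈ (G2 W ∪ ⋃ x : A × Bool, tr (mk [x]) '' G2 W), edges 1 p.1.toWord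

noncomputable def G5 : Set (FreeGroup A × A) :=
  ⋃ τ ∈ {τ | Realized W τ}, ⋃ f ∈ G4 W, tr (f.1 * (rep W τ).1⁻¹) '' Forb W τ

variable [Finite A] {C : Set (FreeGroup A)}

lemma realized_finite (hC : C.Finite)
    (h : ∀ w, IsFix W w → ∀ v ∈ vlist w, disp W v ∈ C) : {τ | Realized W τ}.Finite := by
  apply (hC.prod (Set.finite_univ (α := A))).subset
  rintro ⟨c, a⟩ ⟨w, e, hw, he, h1, h2⟩
  refine ⟨?_, Set.mem_univ _⟩
  simp only at h1
  rw [← h1]
  apply h w hw
  rw [mem_vlist]
  have := (visited_iff 1 e.1 w).2 (Or.inr ⟨e, he, isEnd_fst e⟩)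
  simpa using this

omit [Finite A] in
lemma G2_finite (hR : {τ | Realized W τ}.Finite) : (G2 W).Finite := by
  apply hR.biUnion
  intro τ hτ
  apply (Forb_finite W hτ).biUnion
  intro p _
  exact (Forb_finite W hτ).image _

lemma G4_finite (hR : {τ | Realized W τ}.Finite) : (G4 W).Finite := by
  have h1 : (G2 W ∪ ⋃ x : A × Bool, tr (mk [x]) '' G2 W).Finite :=
    (G2_finite W hR).union (Set.finite_iUnion fun x => (G2_finite W hR).image _)
  exact h1.union (h1.biUnion fun p _ => edges_finite _ _)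

lemma G5_finite (hR : {τ | Realized W τ}.Finite) : (G5 W).Finite := by
  apply hR.biUnion
  intro τ hτ
  apply (G4_finite W hR).biUnion
  intro f _
  exact (Forb_finite W hτ).image _

omit [Finite A] in
lemma Zset_bound {w : List (A × Bool)} (hw : IsFix W w) {e : FreeGroup A × A} :
    Zset W (edges 1 w) e ⊆ tr e.1 '' G2 W := by
  intro g hg
  obtain ⟨f, ⟨hf, k, hk⟩, j, hj⟩ := (mem_Zset W).1 hg
  obtain ⟨h1, h2, h3⟩ := type_translate W hw hf
  set τ := (disp W f.1, f.2) with hτ
  set q := f.1 * (rep W τ).1⁻¹ with hq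
  have hs : ({f} : Set (FreeGroup A × A)) = tr q '' {rep W τ} := by
    rw [Set.image_singleton, ← h3]
  rw [hs, it_tr W _ h2] at hk hj
  obtain ⟨p, hp, hpe⟩ := hk
  obtain ⟨g', hg', hge⟩ := hj
  have hqe : q = e.1 * p.1⁻¹ := by
    rw [← hpe]; simp [tr]
  refine ⟨tr p.1⁻¹ g', ?_, ?_⟩
  · simp only [G2, Set.mem_iUnion]
    exact ⟨τ, h1, p, Set.mem_iUnion.2 ⟨k, hp⟩, g', Set.mem_iUnion.2 ⟨j, hg'⟩, rfl⟩
  · rw [tr_tr, ← hqe, hge]

open Classical in
omit [Finite A] in
/-- The hull. -/
lemma exists_hull {w w₁ w₂ : List (A × Bool)} {x : A × Bool} (hw : IsFix W w)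
    (hsplit : w = w₁ ++ x :: w₂) :
    ∃ H : Set (FreeGroup A × A), H ⊆ edges 1 w ∧ simg W H = H ∧ ledge (mk w₁) x ∈ H ∧
      H ⊆ tr (mk w₁) '' G5 W ∧
      ∀ e ∈ H, edges (mk w₁) ((mk w₁ : FreeGroup A)⁻¹ * e.1).toWord ⊆ H := by
  set E := edges (1 : FreeGroup A) w with hE
  set g : FreeGroup A := mk w₁ with hg
  set e₀ := ledge g x with he₀
  have hEfix : simg W E = E := hw.1
  have he₀E : e₀ ∈ E := by
    rw [hE, hsplit, edges_append, one_mul, edges_cons]
    exact Or.inr (Or.inl rfl)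
  set Z := Zset W E e₀ with hZ
  have hZE : Z ⊆ E := Zset_subset W hEfix e₀
  have hZfix : simg W Z = Z := simg_Zset W hEfix e₀
  have hZe : e₀ ∈ Z := self_mem_Zset W he₀E
  have hgend : IsEnd g e₀ := by rw [he₀, isEnd_ledge]; left; rfl
  have hZfin : Z.Finite := (edges_finite 1 w).subset hZE
  -- relative position
  have hZb : Z ⊆ tr g '' (G2 W ∪ ⋃ x : A × Bool, tr (mk [x]) '' G2 W) := by
    refine (Zset_bound W hw).trans ?_
    rintro _ ⟨f, hf, rfl⟩
    have : e₀.1 = g ∨ e₀.1 = g * mk [x] := by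
      rw [he₀]; unfold ledge
      split
      · left; rfl
      · right; rfl
    rcases this with h | h
    · rw [h]; exact ⟨f, Or.inl hf, rfl⟩
    · rw [h, ← tr_tr]
      exact ⟨_, Or.inr (Set.mem_iUnion.2 ⟨x, f, hf, rfl⟩), rfl⟩
  -- the word v₀
  obtain ⟨l, hl⟩ : ∃ l : List (FreeGroup A × A), ∀ f, f ∈ l ↔ tr g f ∈ Z := by
    have : (tr g ⁻¹' Z).Finite := hZfin.preimage (tr_injective g).injOn
    exact ⟨this.toFinset.toList, fun f => by simp⟩
  set v₀ := loops l with hv₀
  set H₀ := edges g v₀ with hH₀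
  have hmem : ∀ f, f ∈ H₀ ↔ ∃ e ∈ Z, f ∈ edges g (g⁻¹ * e.1).toWord ∨ f = e := by
    intro f
    rw [hH₀, hv₀, mem_edges_loops]
    constructor
    · rintro ⟨e, he, h⟩
      refine ⟨tr g e, (hl e).1 he, ?_⟩
      simpa [tr] using h
    · rintro ⟨e, he, h⟩
      refine ⟨tr g⁻¹ e, (hl _).2 (by rw [tr_tr]; simpa using he), ?_⟩
      rw [tr_tr]
      simpa [tr] using h
  have hZH₀ : Z ⊆ H₀ := fun f hf => (hmem f).2 ⟨f, hf, Or.inr rfl⟩
  -- geodesics inside path sets containing Z
  have hgeo : ∀ (g' : FreeGroup A) (y' : List (A × Bool)), Z ⊆ edges g' y' →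
      ∀ e ∈ edges g' y', edges g (g⁻¹ * e.1).toWord ⊆ edges g' y' := by
    intro g' y' hsub e he
    apply geodesic_between
    · exact (visited_iff _ _ _).2 (Or.inr ⟨e₀, hsub hZe, hgend⟩)
    · exact (visited_iff _ _ _).2 (Or.inr ⟨e, he, isEnd_fst e⟩)
  have hH₀E : H₀ ⊆ E := by
    intro f hf
    obtain ⟨e, he, h | rfl⟩ := (hmem f).1 hf
    · exact hgeo 1 w hZE e (hZE he) h
    · exact hZE he
  have hH₀s : H₀ ⊆ simg W H₀ := by
    have h1 : simg W H₀ = edges (phib W g) (Phi W v₀) := by rw [hH₀, edges_Phi]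
    have h2 : Z ⊆ edges (phib W g) (Phi W v₀) := by
      rw [← h1, ← hZfix]
      exact simg_mono W hZH₀
    intro f hf
    rw [h1]
    obtain ⟨e, he, h | rfl⟩ := (hmem f).1 hf
    · exact hgeo _ _ h2 e (h2 he) h
    · exact h2 he
  have hZit : ∀ k, Z ⊆ it W k H₀ := by
    intro k
    have := it_mono W k hZH₀
    rwa [it_fixed W k hZfix] at this
  refine ⟨⋃ k, it W k H₀, ?_, ?_, ?_, ?_, ?_⟩
  · intro f hf
    obtain ⟨k, hk⟩ := Set.mem_iUnion.1 hf
    have := it_mono W k hH₀E hk
    rwa [it_fixed W k hEfix] at this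
  · rw [simg_iUnion]
    apply Set.Subset.antisymm
    · apply Set.iUnion_subset
      intro k
      rw [← it_succ']
      exact Set.subset_iUnion (fun k => it W k H₀) (k + 1)
    · apply Set.iUnion_subset
      intro k
      refine Set.Subset.trans ?_ (Set.subset_iUnion (fun k => simg W (it W k H₀)) k)
      show it W k H₀ ⊆ simg W (it W k H₀)
      rw [← it_succ', it_succ]
      exact it_mono W k hH₀s
  · exact Set.mem_iUnion.2 ⟨0, hZH₀ hZe⟩
  · intro f hf
    obtain ⟨k, hk⟩ := Set.mem_iUnion.1 hf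
    have hsing : ∀ (k : ℕ) (S : Set (FreeGroup A × A)) (f), f ∈ it W k S → ∃ e ∈ S,
        f ∈ it W k {e} := by
      intro k
      induction k with
      | zero => intro S f hf; exact ⟨f, hf, rfl⟩
      | succ k ih =>
        intro S f hf
        rw [it_succ'] at hf
        obtain ⟨e', he', hf'⟩ := (mem_simg W).1 hf
        obtain ⟨e, he, h⟩ := ih S e' he'
        refine ⟨e, he, ?_⟩
        rw [it_succ']
        exact (mem_simg W).2 ⟨e', h, hf'⟩
    obtain ⟨e, he, hfe⟩ := hsing k H₀ f hk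
    obtain ⟨h1, h2, h3⟩ := type_translate W hw (hH₀E he)
    set τ := (disp W e.1, e.2) with hτ
    have hs : ({e} : Set (FreeGroup A × A)) = tr (e.1 * (rep W τ).1⁻¹) '' {rep W τ} := by
      rw [Set.image_singleton, ← h3]
    rw [hs, it_tr W _ h2] at hfe
    obtain ⟨f', hf', hfe⟩ := hfe
    -- e relative
    have heG : tr g⁻¹ e ∈ G4 W := by
      obtain ⟨p, hp, h | h⟩ := (hmem e).1 he
      · obtain ⟨p', hp', rfl⟩ := hZb hp
        right
        simp only [Set.mem_iUnion]
        refine ⟨p', hp', ?_⟩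
        have h5 : g⁻¹ * (tr g p').1 = p'.1 := by simp [tr]
        rw [h5, edges_eq] at h
        obtain ⟨r, hr, rfl⟩ := h
        rw [tr_tr]
        simpa using hr
      · left
        rw [h]
        obtain ⟨p', hp', rfl⟩ := hZb hp
        rw [tr_tr]
        simpa using hp'
    refine ⟨tr ((tr g⁻¹ e).1 * (rep W τ).1⁻¹) f', ?_, ?_⟩
    · simp only [G5, Set.mem_iUnion]
      exact ⟨τ, h1, tr g⁻¹ e, heG, f', Set.mem_iUnion.2 ⟨k, hf'⟩, rfl⟩
    · rw [tr_tr, ← hfe]
      simp [tr, mul_assoc]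
  · intro e he
    obtain ⟨k, hk⟩ := Set.mem_iUnion.1 he
    obtain ⟨g', y', hy⟩ := it_edges W k g v₀
    have hy' : it W k H₀ = edges g' y' := hy
    have h1 : Z ⊆ edges g' y' := by rw [← hy']; exact hZit k
    rw [hy'] at hk
    refine (hgeo g' y' h1 e hk).trans ?_
    rw [← hy']
    exact Set.subset_iUnion (fun k => it W k H₀) k

open Classical in
/-- A finite set of loop words suffices. -/
lemma exists_loops (hC : C.Finite) (h : ∀ w, IsFix W w → ∀ v ∈ vlist w, disp W v ∈ C) :
    ∃ V : Set (List (A × Bool)), V.Finite ∧ (∀ v ∈ V, (mk v : FreeGroup A) = 1) ∧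
      ∀ w, IsFix W w → ∀ w₁ x w₂, w = w₁ ++ x :: w₂ →
        ∃ v ∈ V, edges (mk w₁) v ⊆ edges 1 w ∧
          simg W (edges (mk w₁) v) = edges (mk w₁) v ∧ ledge (mk w₁) x ∈ edges (mk w₁) v := by
  have hR := realized_finite W hC h
  have hG := G5_finite W hR
  refine ⟨(fun s : Finset (FreeGroup A × A) => loops s.toList) ''
    {s | s ⊆ hG.toFinset}, ?_, ?_, ?_⟩
  · apply Set.Finite.image
    have : {s : Finset (FreeGroup A × A) | s ⊆ hG.toFinset} = ↑(hG.toFinset.powerset) := by
      ext s; simp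
    rw [this]
    exact Finset.finite_toSet _
  · rintro _ ⟨s, -, rfl⟩
    exact mk_loops _
  · intro w hw w₁ x w₂ hsplit
    obtain ⟨H, h1, h2, h3, h4, h5⟩ := exists_hull W hw hsplit
    have hfin : (tr (mk w₁) ⁻¹' H).Finite :=
      ((edges_finite 1 w).subset h1).preimage (tr_injective _).injOn
    have hedge : edges (mk w₁) (loops hfin.toFinset.toList) = H := by
      ext f
      rw [mem_edges_loops]
      constructor
      · rintro ⟨e, he, h | h⟩
        · have he' : tr (mk w₁) e ∈ H := by simpa using he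
          have := h5 _ he'
          apply this
          have h6 : (mk w₁ : FreeGroup A)⁻¹ * (tr (mk w₁) e).1 = e.1 := by
            simp only [tr, inv_mul_cancel_left]
          rw [h6]
          exact h
        · rw [h]; simpa using he
      · intro hf
        refine ⟨tr (mk w₁)⁻¹ f, ?_, Or.inr ?_⟩
        · simp only [Finset.mem_toList, Set.Finite.mem_toFinset, Set.mem_preimage]
          rw [tr_tr, mul_inv_cancel, tr_one]; exact hf
        · rw [tr_tr, mul_inv_cancel, tr_one]
    refine ⟨loops hfin.toFinset.toList, ⟨hfin.toFinset, ?_, rfl⟩, ?_⟩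
    · intro f hf
      simp only [Set.Finite.mem_toFinset, Set.mem_preimage] at hf ⊢
      obtain ⟨f', hf', h6⟩ := h4 hf
      rwa [tr_injective _ h6] at hf'
    · rw [hedge]
      exact ⟨h1, h2, h3⟩

end Pool.Agent.Helper1.FIM
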