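import Pool.Agent.Helper1.FIM.Defs

/-!
Munn trees for the free inverse monoid: the pair (edge set, end point) is a complete invariant.
-/

namespace Pool.Agent.Helper1.FIM

open FreeGroup

universe u
variable {A : Type u}

/-- Inverse of a word, on lists. -/
def linv (w : List (A × Bool)) : List (A × Bool) := w.reverse.map fun p => (p.1, !p.2)

@[simp] lemma linv_nil : linv ([] : List (A × Bool)) = [] := rfl
@[simp] lemma linv_singleton (x : A × Bool) : linv [x] = [(x.1, !x.2)] := rfl
@[simp] lemma linv_append (u v : List (A × Bool)) : linv (u ++ v) = linv v ++ linv u := by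
  simp [linv]
@[simp] lemma linv_linv (u : List (A × Bool)) : linv (linv u) = u := by
  simp [linv, List.map_reverse, Function.comp_def]

lemma linv_eq_invRev (w : List (A × Bool)) : linv w = invRev w := by
  simp [linv, invRev, List.map_reverse]

@[simp] lemma mk_linv (w : List (A × Bool)) : (mk (linv w) : FreeGroup A) = (mk w)⁻¹ := by
  rw [linv_eq_invRev, inv_mk]

lemma proj_append (u v : List (A × Bool)) : proj (u ++ v) = proj u * proj v := by
  simp [proj, FreeMonoid.ofList_append]

@[simp] lemma proj_nil : proj ([] : List (A × Bool)) = 1 := by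
  simp [proj]

lemma proj_surjective : Function.Surjective (proj (A := A)) := by
  intro x
  obtain ⟨w, rfl⟩ := Con.mk'_surjective x
  exact ⟨FreeMonoid.toList w, rfl⟩

lemma proj_regular (u : List (A × Bool)) : proj u * proj (linv u) * proj u = proj u := by
  have h := ConGen.Rel.of (r := WagnerRel A) _ _ (WagnerRel.regular (FreeMonoid.ofList u))
  have h2 : (conGen (WagnerRel A)) (FreeMonoid.ofList u * invWord (FreeMonoid.ofList u) *
    FreeMonoid.ofList u) (FreeMonoid.ofList u) := h
  have h3 := (Con.eq (conGen (WagnerRel A))).2 h2
  rw [← proj_append, ← proj_append]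
  exact h3

/-- The idempotent of a word. -/
def idem (u : List (A × Bool)) : FreeInverseMonoid A := proj u * proj (linv u)

lemma idem_comm (u v : List (A × Bool)) : idem u * idem v = idem v * idem u := by
  have h := ConGen.Rel.of (r := WagnerRel A) _ _
    (WagnerRel.commute (FreeMonoid.ofList u) (FreeMonoid.ofList v))
  have h3 := (Con.eq (conGen (WagnerRel A))).2 h
  unfold idem
  rw [← proj_append, ← proj_append, ← proj_append, ← proj_append]
  exact h3

lemma idem_mul_proj (u : List (A × Bool)) : idem u * proj u = proj u := proj_regular u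

lemma idem_sq (u : List (A × Bool)) : idem u * idem u = idem u := by
  unfold idem
  rw [← mul_assoc, proj_regular]

/-- `proj v * proj (v⁻¹ v) = proj v`-type commutation. -/
lemma proj_mul_idem (u : List (A × Bool)) : proj u * idem (linv u) = proj u := by
  unfold idem
  rw [← mul_assoc, linv_linv]
  exact proj_regular u

section
open Classical in
/-- Idempotent attached to a free group element. -/
noncomputable def eps (g : FreeGroup A) : FreeInverseMonoid A := idem g.toWord

lemma eps_comm (g h : FreeGroup A) : eps g * eps h = eps h * eps g := idem_comm _ _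
lemma eps_sq (g : FreeGroup A) : eps g * eps g = eps g := idem_sq _

/-- The vertices visited by a word, starting at `1`. -/
def vlist (w : List (A × Bool)) : List (FreeGroup A) := w.inits.map mk

/-- product of the idempotents of the visited vertices -/
noncomputable def eprod (l : List (FreeGroup A)) : FreeInverseMonoid A := (l.map eps).prod

lemma eprod_append (l m : List (FreeGroup A)) : eprod (l ++ m) = eprod l * eprod m := by
  simp [eprod]

lemma eps_comm_eprod (g : FreeGroup A) (l : List (FreeGroup A)) :
    eps g * eprod l = eprod l * eps g := by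
  induction l with
  | nil => simp [eprod]
  | cons a l ih =>
    have : eprod (a :: l) = eps a * eprod l := by simp [eprod]
    rw [this, ← mul_assoc, eps_comm, mul_assoc, ih, mul_assoc]

lemma eprod_comm (l m : List (FreeGroup A)) : eprod l * eprod m = eprod m * eprod l := by
  induction l with
  | nil => simp [eprod]
  | cons a l ih =>
    have : eprod (a :: l) = eps a * eprod l := by simp [eprod]
    rw [this, mul_assoc, ih, ← mul_assoc, eps_comm_eprod, mul_assoc]

lemma vlist_snoc (w : List (A × Bool)) (x : A × Bool) :
    vlist (w ++ [x]) = vlist w ++ [mk (w ++ [x])] := by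
  simp [vlist, List.inits_append]

lemma mem_vlist (w : List (A × Bool)) (g : FreeGroup A) :
    g ∈ vlist w ↔ ∃ w1 w2, w = w1 ++ w2 ∧ mk w1 = g := by
  constructor
  · intro h
    simp only [vlist, List.mem_map, List.mem_inits] at h
    obtain ⟨w1, ⟨w2, h2⟩, h3⟩ := h
    exact ⟨w1, w2, h2.symm, h3⟩
  · rintro ⟨w1, w2, h2, h3⟩
    simp only [vlist, List.mem_map, List.mem_inits]
    exact ⟨w1, ⟨w2, h2.symm⟩, h3⟩

lemma eprod_mul_eps_last (w : List (A × Bool)) :
    eprod (vlist w) * eps (mk w) = eprod (vlist w) := by
  induction w using List.reverseRecOn with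
  | nil =>
    simp [vlist, eprod, ← FreeGroup.one_eq_mk, eps_sq]
  | append_singleton w x ih =>
    rw [vlist_snoc, eprod_append]
    have : eprod [mk (w ++ [x])] = eps (mk (w ++ [x])) := by simp [eprod]
    rw [this, mul_assoc, eps_sq]

open Classical in
/-- Dichotomy for appending a letter to a reduced word. -/
lemma toWord_mul_letter (g : FreeGroup A) (x : A × Bool) :
    (g * mk [x]).toWord = g.toWord ++ [x] ∨
      ∃ r, g.toWord = r ++ [(x.1, !x.2)] ∧ (g * mk [x]).toWord = r := by
  rcases List.eq_nil_or_concat g.toWord with h | ⟨r, y, h⟩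
  · left
    rw [toWord_mul, h]
    simp
  · have hred : IsReduced (r ++ [y]) := by
      rw [← List.concat_eq_append, ← h]; exact isReduced_toWord
    rw [List.concat_eq_append] at h
    by_cases hxy : y = (x.1, !x.2)
    · right
      refine ⟨r, by rw [h, hxy], ?_⟩
      have hg : g = mk (r ++ [y]) := by rw [← h, mk_toWord]
      have : g * mk [x] = mk r := by
        rw [hg, hxy, ← mul_mk, mul_assoc]
        have : (mk [(x.1, !x.2)] : FreeGroup A) * mk [x] = 1 := by
          have := mk_linv [x]
          rw [linv_singleton] at this
          rw [this]; exact inv_mul_cancel _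
        rw [this, mul_one]
      rw [this, toWord_mk]
      exact IsReduced.reduce_eq (List.isChain_append.1 hred).1
    · left
      have hred2 : IsReduced ([y] ++ [x]) := by
        rw [List.singleton_append]
        rw [isReduced_cons_cons]
        refine ⟨?_, IsReduced.singleton⟩
        intro h1
        by_contra h2
        apply hxy
        ext
        · exact h1
        · have : y.2 = !x.2 := by
            cases hy : y.2 <;> cases hx : x.2 <;> simp_all
          simp [this]
      have := IsReduced.append_overlap hred hred2 (by simp)
      have hg : g = mk (r ++ [y]) := by rw [← h, mk_toWord]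
      rw [hg, mul_mk, toWord_mk, toWord_mk]
      rw [hred.reduce_eq]
      exact this.reduce_eq

open Classical in
/-- Normal form. -/
lemma proj_eq_normal (w : List (A × Bool)) :
    proj w = eprod (vlist w) * proj (mk w : FreeGroup A).toWord := by
  induction w using List.reverseRecOn with
  | nil =>
    simp [vlist, eprod, ← FreeGroup.one_eq_mk, eps, idem]
  | append_singleton w x ih =>
    have he : ∀ g : FreeGroup A, eps g * proj g.toWord = proj g.toWord := fun g => idem_mul_proj _
    have hmk : (mk (w ++ [x]) : FreeGroup A) = mk w * mk [x] := by rw [mul_mk]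
    have hsnoc : eprod (vlist (w ++ [x])) = eprod (vlist w) * eps (mk w * mk [x]) := by
      rw [vlist_snoc, eprod_append, hmk]; simp [eprod]
    rw [proj_append, ih, hsnoc, mul_assoc, mul_assoc, hmk, he]
    rcases toWord_mul_letter (mk w : FreeGroup A) x with h | ⟨r, h1, h2⟩
    · rw [h, proj_append]
    · rw [h2, h1, proj_append]
      have key : eps (mk w : FreeGroup A) * proj r =
          proj r * proj [(x.1, !x.2)] * proj [x] := by
        unfold eps
        rw [h1]
        unfold idem
        rw [linv_append, proj_append, proj_append, linv_singleton]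
        simp only [Bool.not_not, Prod.mk.eta]
        have e1 : proj [(x.1, !x.2)] * proj [x] = idem [(x.1, !x.2)] := by
          simp [idem]
        have e2 : proj (linv r) * proj r = idem (linv r) := by
          simp [idem]
        calc proj r * proj [(x.1, !x.2)] * (proj [x] * proj (linv r)) * proj r
            = proj r * ((proj [(x.1, !x.2)] * proj [x]) * (proj (linv r) * proj r)) := by
              simp only [mul_assoc]
          _ = proj r * (idem (linv r) * idem [(x.1, !x.2)]) := by rw [e1, e2, idem_comm]
          _ = proj r * proj [(x.1, !x.2)] * proj [x] := by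
              rw [← mul_assoc, proj_mul_idem, ← e1, mul_assoc]
      calc eprod (vlist w) * (proj r * proj [(x.1, !x.2)] * proj [x])
          = eprod (vlist w) * eps (mk w) * proj r := by rw [← key, mul_assoc]
        _ = eprod (vlist w) * proj r := by rw [eprod_mul_eps_last]

open Classical in
lemma eps_absorb {w : List (A × Bool)} {g : FreeGroup A} (h : g ∈ vlist w) :
    eps g * proj w = proj w := by
  obtain ⟨w1, w2, rfl, rfl⟩ := (mem_vlist w g).1 h
  rw [proj_append, ← mul_assoc]
  congr 1
  conv_lhs => rw [proj_eq_normal w1]
  rw [← mul_assoc, eps_comm_eprod, mul_assoc]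
  have : eps (mk w1 : FreeGroup A) * proj (mk w1 : FreeGroup A).toWord =
    proj (mk w1 : FreeGroup A).toWord := idem_mul_proj _
  rw [this, ← proj_eq_normal]

lemma eprod_absorb {w : List (A × Bool)} (l : List (FreeGroup A)) (h : ∀ g ∈ l, g ∈ vlist w) :
    eprod l * proj w = proj w := by
  induction l with
  | nil => simp [eprod]
  | cons a l ih =>
    have : eprod (a :: l) = eps a * eprod l := by simp [eprod]
    rw [this, mul_assoc, ih (fun g hg => h g (List.mem_cons_of_mem _ hg)),
      eps_absorb (h a (by simp))]

/-- Munn: vertex set and end point determine the element. -/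
theorem proj_eq_of_vlist {w w' : List (A × Bool)} (h : ∀ g, g ∈ vlist w ↔ g ∈ vlist w')
    (hm : (mk w : FreeGroup A) = mk w') : proj w = proj w' := by
  classical
  have h1 : eprod (vlist w) * proj w' = proj w' := eprod_absorb _ fun g hg => (h g).1 hg
  have h2 : eprod (vlist w') * proj w = proj w := eprod_absorb _ fun g hg => (h g).2 hg
  calc proj w = eprod (vlist w') * proj w := h2.symm
    _ = eprod (vlist w') * (eprod (vlist w) * proj (mk w : FreeGroup A).toWord) := by
        conv_lhs => rw [proj_eq_normal w]
    _ = eprod (vlist w) * (eprod (vlist w') * proj (mk w' : FreeGroup A).toWord) := by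
        rw [← mul_assoc, eprod_comm, mul_assoc, hm]
    _ = eprod (vlist w) * proj w' := by rw [← proj_eq_normal w']
    _ = proj w' := h1

end

/-! ### Edge sets -/

/-- The positively oriented edge (origin, letter) crossed when reading the letter `x` at `g`. -/
def ledge (g : FreeGroup A) (x : A × Bool) : FreeGroup A × A :=
  if x.2 then (g, x.1) else (g * mk [x], x.1)

/-- Left translation of edges. -/
def tr (h : FreeGroup A) (e : FreeGroup A × A) : FreeGroup A × A := (h * e.1, e.2)

@[simp] lemma tr_one (e : FreeGroup A × A) : tr 1 e = e := by simp [tr]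
lemma tr_tr (g h : FreeGroup A) (e : FreeGroup A × A) : tr g (tr h e) = tr (g * h) e := by
  simp [tr, mul_assoc]
lemma tr_injective (g : FreeGroup A) : Function.Injective (tr g) := by
  intro e f h
  simp only [tr, Prod.mk.injEq, mul_right_inj] at h
  exact Prod.ext h.1 h.2

lemma tr_ledge (h g : FreeGroup A) (x : A × Bool) : tr h (ledge g x) = ledge (h * g) x := by
  unfold tr ledge
  split <;> simp [mul_assoc]

/-- The set of edges of the path reading `w` from `g`. -/
def edges (g : FreeGroup A) : List (A × Bool) → Set (FreeGroup A × A)
  | [] => ∅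
  | x :: w => insert (ledge g x) (edges (g * mk [x]) w)

@[simp] lemma edges_nil (g : FreeGroup A) : edges g [] = ∅ := rfl
lemma edges_cons (g : FreeGroup A) (x : A × Bool) (w : List (A × Bool)) :
    edges g (x :: w) = insert (ledge g x) (edges (g * mk [x]) w) := rfl

lemma edges_finite (g : FreeGroup A) (w : List (A × Bool)) : (edges g w).Finite := by
  induction w generalizing g with
  | nil => simp
  | cons x w ih => exact (ih _).insert _

lemma edges_append (g : FreeGroup A) (v w : List (A × Bool)) :
    edges g (v ++ w) = edges g v ∪ edges (g * mk v) w := by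
  induction v generalizing g with
  | nil => simp [← FreeGroup.one_eq_mk]
  | cons x v ih =>
    rw [List.cons_append, edges_cons, edges_cons, ih, Set.insert_union, mul_assoc, mul_mk,
      List.singleton_append]

lemma edges_translate (h g : FreeGroup A) (w : List (A × Bool)) :
    edges (h * g) w = tr h '' edges g w := by
  induction w generalizing g with
  | nil => simp
  | cons x w ih =>
    rw [edges_cons, edges_cons, Set.image_insert_eq, tr_ledge, mul_assoc, ih]

lemma edges_eq (g : FreeGroup A) (w : List (A × Bool)) : edges g w = tr g '' edges 1 w := by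
  have := edges_translate g 1 w
  rwa [mul_one] at this

/-- Reading a letter back crosses the same edge. -/
lemma ledge_back (g : FreeGroup A) (x : A × Bool) :
    ledge (g * mk [x]) (x.1, !x.2) = ledge g x := by
  have hinv : (mk [(x.1, !x.2)] : FreeGroup A) = (mk [x])⁻¹ := by
    have := mk_linv [x]
    rwa [linv_singleton] at this
  obtain ⟨a, b⟩ := x
  cases b
  · simp [ledge]
  · simp only [ledge, Bool.not_true, if_true]
    simp only [Bool.false_eq_true, if_false]
    simp only [Bool.not_true] at hinv
    rw [hinv, mul_inv_cancel_right]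

lemma edges_linv (g : FreeGroup A) (w : List (A × Bool)) :
    edges (g * mk w) (linv w) = edges g w := by
  induction w using List.reverseRecOn generalizing g with
  | nil => simp
  | append_singleton w x ih =>
    rw [linv_append, edges_append, edges_append, linv_singleton]
    have hinv : (mk [(x.1, !x.2)] : FreeGroup A) = (mk [x])⁻¹ := by
      have := mk_linv [x]
      rwa [linv_singleton] at this
    have h1 : g * mk (w ++ [x]) * mk [(x.1, !x.2)] = g * mk w := by
      rw [hinv, ← mul_mk]; group
    rw [h1, ih]
    rw [edges_cons, edges_cons, edges_nil, edges_nil]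
    have h2 : ledge (g * mk (w ++ [x])) (x.1, !x.2) = ledge (g * mk w) x := by
      rw [← mul_mk, ← mul_assoc, ledge_back]
    rw [h2, Set.union_comm]

/-- end points of an edge -/
def IsEnd (v : FreeGroup A) (e : FreeGroup A × A) : Prop := v = e.1 ∨ v = e.1 * of e.2

lemma isEnd_ledge (g : FreeGroup A) (x : A × Bool) (v : FreeGroup A) :
    IsEnd v (ledge g x) ↔ v = g ∨ v = g * mk [x] := by
  obtain ⟨a, b⟩ := x
  cases b
  · simp only [ledge, IsEnd, Bool.false_eq_true, if_false]
    have : (g * mk [(a, false)] * of a : FreeGroup A) = g := by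
      have h : (mk [(a, false)] : FreeGroup A) = (of a)⁻¹ := by
        rw [of, inv_mk]; rfl
      rw [h]; simp
    rw [this, or_comm]
  · simp only [ledge, IsEnd, if_true]
    rfl

lemma mem_vlist_iff_edges (w : List (A × Bool)) (g v : FreeGroup A) :
    (∃ w1 w2, w = w1 ++ w2 ∧ g * mk w1 = v) ↔ v = g ∨ ∃ e ∈ edges g w, IsEnd v e := by
  induction w generalizing g with
  | nil =>
    simp only [edges_nil, Set.mem_empty_iff_false, false_and, exists_false, or_false]
    constructor
    · rintro ⟨w1, w2, h, rfl⟩
      obtain ⟨rfl, rfl⟩ := List.append_eq_nil_iff.1 h.symm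
      simp [← FreeGroup.one_eq_mk]
    · rintro rfl
      exact ⟨[], [], rfl, by simp [← FreeGroup.one_eq_mk]⟩
  | cons x w ih =>
    constructor
    · rintro ⟨w1, w2, h, rfl⟩
      cases w1 with
      | nil => left; simp [← FreeGroup.one_eq_mk]
      | cons y w1 =>
        simp only [List.cons_append, List.cons.injEq] at h
        obtain ⟨rfl, rfl⟩ := h
        have hmk : g * mk [x] * mk w1 = g * mk (x :: w1) := by
          rw [mul_assoc, mul_mk]; rfl
        have := (ih (g * mk [x])).1 ⟨w1, w2, rfl, hmk⟩
        rcases this with h | ⟨e, he, h2⟩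
        · right
          refine ⟨ledge g x, Set.mem_insert _ _, ?_⟩
          rw [isEnd_ledge]; right; exact h
        · right
          exact ⟨e, Set.mem_insert_of_mem _ he, h2⟩
    · rintro (h | ⟨e, he, h2⟩)
      · exact ⟨[], x :: w, rfl, by simp [← FreeGroup.one_eq_mk, h]⟩
      · rw [edges_cons, Set.mem_insert_iff] at he
        have hstep : (v = g * mk [x] ∨ ∃ e ∈ edges (g * mk [x]) w, IsEnd v e) →
            ∃ w1 w2, x :: w = w1 ++ w2 ∧ g * mk w1 = v := by
          intro h
          obtain ⟨w1, w2, h3, h4⟩ := (ih (g * mk [x])).2 h
          refine ⟨x :: w1, w2, by rw [h3]; rfl, ?_⟩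
          rw [← h4, mul_assoc, mul_mk]; rfl
        rcases he with rfl | he
        · rw [isEnd_ledge] at h2
          rcases h2 with rfl | h2
          · exact ⟨[], x :: w, rfl, by simp [← FreeGroup.one_eq_mk]⟩
          · exact hstep (Or.inl h2)
        · exact hstep (Or.inr ⟨e, he, h2⟩)

/-- Munn's theorem, one direction: equal edge sets and end points give equal elements. -/
theorem proj_eq_of_edges {w w' : List (A × Bool)} (h : edges 1 w = edges 1 w')
    (hm : (mk w : FreeGroup A) = mk w') : proj w = proj w' := by
  apply proj_eq_of_vlist _ hm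
  intro g
  rw [mem_vlist, mem_vlist]
  have h1 := mem_vlist_iff_edges w 1 g
  have h2 := mem_vlist_iff_edges w' 1 g
  simp only [one_mul] at h1 h2
  rw [h1, h2, h]

/-- The congruence of having the same Munn tree. -/
def munnCon (A : Type u) : Con (FreeMonoid (A × Bool)) where
  r := fun v w => edges (1 : FreeGroup A) (FreeMonoid.toList v) =
    edges 1 (FreeMonoid.toList w) ∧
      (mk (FreeMonoid.toList v) : FreeGroup A) = mk (FreeMonoid.toList w)
  iseqv := ⟨fun _ => ⟨rfl, rfl⟩, fun h => ⟨h.1.symm, h.2.symm⟩,
    fun h h' => ⟨h.1.trans h'.1, h.2.trans h'.2⟩⟩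
  mul' := by
    rintro a b c d ⟨h1, h2⟩ ⟨h3, h4⟩
    constructor
    · rw [FreeMonoid.toList_mul, FreeMonoid.toList_mul, edges_append, edges_append, h1, h2,
        edges_eq (1 * _), edges_eq (1 * _), h3]
    · rw [FreeMonoid.toList_mul, FreeMonoid.toList_mul, ← mul_mk, ← mul_mk, h2, h4]

/-- Munn's theorem, other direction. -/
theorem edges_of_proj_eq {w w' : List (A × Bool)} (h : proj w = proj w') :
    edges (1 : FreeGroup A) w = edges 1 w' ∧ (mk w : FreeGroup A) = mk w' := by
  have hle : conGen (WagnerRel A) ≤ munnCon A := by
    apply Con.conGen_le.2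
    intro x y hxy
    have inv_aux : ∀ z : FreeMonoid (A × Bool),
        FreeMonoid.toList (invWord z) = linv (FreeMonoid.toList z) := fun z => rfl
    have cancel : ∀ (g : FreeGroup A) (z : List (A × Bool)),
        edges g (z ++ linv z) = edges g z := by
      intro g z
      rw [edges_append, edges_linv, Set.union_self]
    have mk_cancel : ∀ z : List (A × Bool), (mk (z ++ linv z) : FreeGroup A) = 1 := by
      intro z
      rw [← mul_mk, mk_linv, mul_inv_cancel]
    cases hxy with
    | regular =>
      show edges (1 : FreeGroup A) (FreeMonoid.toList (y * invWord y * y)) = edges 1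
        (FreeMonoid.toList y) ∧ (mk (FreeMonoid.toList (y * invWord y * y)) : FreeGroup A) =
          mk (FreeMonoid.toList y)
      simp only [FreeMonoid.toList_mul, inv_aux]
      constructor
      · rw [edges_append, cancel, mk_cancel, mul_one, Set.union_self]
      · rw [← mul_mk, mk_cancel, one_mul]
    | commute x y =>
      show edges (1 : FreeGroup A)
        (FreeMonoid.toList (x * invWord x * (y * invWord y))) = edges 1
        (FreeMonoid.toList (y * invWord y * (x * invWord x))) ∧
        (mk (FreeMonoid.toList (x * invWord x * (y * invWord y))) : FreeGroup A) =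
        mk (FreeMonoid.toList (y * invWord y * (x * invWord x)))
      simp only [FreeMonoid.toList_mul, inv_aux]
      constructor
      · rw [edges_append _ (_ ++ _) (_ ++ _), edges_append _ (_ ++ _) (_ ++ _), mk_cancel,
          mk_cancel, mul_one, cancel, cancel, Set.union_comm]
      · rw [← mul_mk (L₁ := _ ++ _), ← mul_mk (L₁ := _ ++ _), mk_cancel, mk_cancel]
  exact hle ((Con.eq _).1 h)

end Pool.Agent.Helper1.FIM
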