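import Pool.Agent.Helper1.FIM.Hull

/-!
Bounded displacement implies rationality of the fixed-point set.
-/

namespace Pool.Agent.Helper1.FIM

open FreeGroup hiding map_mul map_inv map_one

universe u v

/-- A finite family of languages closed under letter derivatives (up to unions) is regular. -/
lemma regular_of_family {α : Type u} {ι : Type v} [Finite ι] (P : ι → Language α)
    (h : ∀ i a, ∃ J : Set ι, ∀ w, (a :: w ∈ P i ↔ ∃ j ∈ J, w ∈ P j)) (i : ι) :
    (P i).IsRegular := by
  have key : ∀ (x : List α) (J : Set ι), ∃ J' : Set ι, ∀ w,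
      ((∃ j ∈ J, x ++ w ∈ P j) ↔ ∃ j ∈ J', w ∈ P j) := by
    intro x
    induction x with
    | nil => intro J; exact ⟨J, fun w => by simp⟩
    | cons a x ih =>
      intro J
      choose K hK using h
      obtain ⟨J', hJ'⟩ := ih (⋃ j ∈ J, K j a)
      refine ⟨J', fun w => ?_⟩
      rw [← hJ']
      constructor
      · rintro ⟨j, hj, hw⟩
        obtain ⟨k, hk, hw⟩ := (hK j a (x ++ w)).1 hw
        exact ⟨k, Set.mem_biUnion hj hk, hw⟩
      · rintro ⟨k, hk, hw⟩
        simp only [Set.mem_iUnion] at hk
        obtain ⟨j, hj, hk⟩ := hk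
        exact ⟨j, hj, (hK j a (x ++ w)).2 ⟨k, hk, hw⟩⟩
  apply Language.IsRegular.of_finite_range_leftQuotient
  have hfin : (Set.range fun J : Set ι => ({w | ∃ j ∈ J, w ∈ P j} : Language α)).Finite :=
    Set.finite_range _
  apply hfin.subset
  rintro _ ⟨x, rfl⟩
  obtain ⟨J', hJ'⟩ := key x {i}
  refine ⟨J', ?_⟩
  ext w
  have := hJ' w
  simp only [Set.mem_singleton_iff, exists_eq_left] at this
  exact this.symm

variable {A : Type u} (W : A → List (A × Bool))

/-- Words generated from the state `c`. -/
inductive Gen (C : Set (FreeGroup A)) (V : Set (List (A × Bool))) :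
    FreeGroup A → List (A × Bool) → Prop
  | nil : Gen C V 1 []
  | step (c : FreeGroup A) (x : A × Bool) (v w : List (A × Bool)) (hc : c ∈ C) (hv : v ∈ V)
      (h1 : ledge 1 x ∈ edges 1 v) (h2 : tr c '' simg W (edges 1 v) = edges 1 v)
      (hw : Gen C V ((mk [x])⁻¹ * c * phib W (mk [x])) w) : Gen C V c (v ++ x :: w)

lemma Gen.sound {C : Set (FreeGroup A)} {V : Set (List (A × Bool))}
    (hV : ∀ v ∈ V, (mk v : FreeGroup A) = 1) {c : FreeGroup A} {w : List (A × Bool)}
    (h : Gen W C V c w) : ∀ g, disp W g = c →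
      simg W (edges g w) = edges g w ∧ disp W (g * mk w) = 1 := by
  induction h with
  | nil =>
    intro g hg
    refine ⟨by simp [simg], ?_⟩
    rw [← FreeGroup.one_eq_mk, mul_one, hg]
  | step c x v w hc hv h1 h2 hw ih =>
    intro g hg
    have hphi : phib W g = g * c := by rw [← hg]; simp [disp]
    have hd : disp W (g * mk [x]) = (mk [x])⁻¹ * c * phib W (mk [x]) := by
      rw [disp_mul, hg]
    obtain ⟨ih1, ih2⟩ := ih _ hd
    have hev : simg W (edges g v) = edges g v := by
      rw [edges_eq g v, simg_tr, hphi]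
      have : tr (g * c) '' simg W (edges 1 v) = tr g '' (tr c '' simg W (edges 1 v)) := by
        rw [Set.image_image]; simp only [tr_tr]
      rw [this, h2]
    have hx : ledge g x ∈ edges g v := by
      rw [edges_eq g v]
      exact ⟨ledge 1 x, h1, by rw [tr_ledge, mul_one]⟩
    have hE : edges g (v ++ x :: w) = edges g v ∪ edges (g * mk [x]) w := by
      rw [edges_append, hV v hv, mul_one, edges_cons, Set.union_insert]
      exact Set.insert_eq_of_mem (Or.inl hx)
    constructor
    · rw [hE, simg_union, hev, ih1]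
    · have : g * mk (v ++ x :: w) = g * mk [x] * mk w := by
        rw [← mul_mk, hV v hv, one_mul, mul_assoc, mul_mk]; rfl
      rw [this, ih2]

lemma Gen.complete {C : Set (FreeGroup A)} {V : Set (List (A × Bool))}
    (hC : ∀ w, IsFix W w → ∀ v ∈ vlist w, disp W v ∈ C)
    (hV : ∀ v ∈ V, (mk v : FreeGroup A) = 1)
    (hloop : ∀ w, IsFix W w → ∀ w₁ x w₂, w = w₁ ++ x :: w₂ →
        ∃ v ∈ V, edges (mk w₁) v ⊆ edges 1 w ∧
          simg W (edges (mk w₁) v) = edges (mk w₁) v ∧ ledge (mk w₁) x ∈ edges (mk w₁) v)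
    {w : List (A × Bool)} (hw : IsFix W w) (w₂ : List (A × Bool)) :
    ∀ w₁, w = w₁ ++ w₂ → ∃ w', Gen W C V (disp W (mk w₁)) w' ∧ (mk w' : FreeGroup A) = mk w₂ ∧
      edges (mk w₁) w₂ ⊆ edges (mk w₁) w' ∧ edges (mk w₁) w' ⊆ edges 1 w := by
  induction w₂ with
  | nil =>
    intro w₁ h
    rw [List.append_nil] at h
    subst h
    refine ⟨[], ?_, rfl, by simp, by simp⟩
    have : disp W (mk w) = 1 := by
      unfold disp; rw [hw.2, inv_mul_cancel]
    rw [this]
    exact Gen.nil
  | cons x w₂ ih =>
    intro w₁ h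
    obtain ⟨w', h1, h2, h3, h4⟩ := ih (w₁ ++ [x]) (by rw [h]; simp)
    obtain ⟨v, hv, h5, h6, h7⟩ := hloop w hw w₁ x w₂ h
    have hmk : (mk (w₁ ++ [x]) : FreeGroup A) = mk w₁ * mk [x] := by rw [mul_mk]
    rw [hmk] at h1 h3 h4
    have hedge : edges (mk w₁ : FreeGroup A) (v ++ x :: w') =
        edges (mk w₁) v ∪ edges (mk w₁ * mk [x]) w' := by
      rw [edges_append, hV v hv, mul_one, edges_cons, Set.union_insert]
      exact Set.insert_eq_of_mem (Or.inl h7)
    refine ⟨v ++ x :: w', ?_, ?_, ?_, ?_⟩
    · apply Gen.step _ x v w' _ hv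
      · rw [edges_eq (mk w₁) v] at h7
        obtain ⟨e, he, h8⟩ := h7
        have : tr (mk w₁) (ledge 1 x) = ledge (mk w₁) x := by rw [tr_ledge, mul_one]
        rw [← this] at h8
        rwa [← tr_injective _ h8]
      · rw [edges_eq (mk w₁) v, simg_tr] at h6
        have hphi : phib W (mk w₁) = mk w₁ * disp W (mk w₁) := by
          unfold disp; rw [mul_inv_cancel_left]
        rw [hphi] at h6
        have : tr (mk w₁ * disp W (mk w₁)) '' simg W (edges 1 v) =
            tr (mk w₁) '' (tr (disp W (mk w₁)) '' simg W (edges 1 v)) := by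
          rw [Set.image_image]; simp only [tr_tr]
        rw [this] at h6
        exact (Set.image_injective.2 (tr_injective _)) h6
      · rw [← disp_mul]; exact h1
      · apply hC w hw
        rw [mem_vlist]
        exact ⟨w₁, _, h, rfl⟩
    · rw [← mul_mk, hV v hv, one_mul, ← List.singleton_append, ← mul_mk, h2, mul_mk]; rfl
    · rw [hedge, edges_cons]
      rw [Set.insert_subset_iff]
      exact ⟨Or.inl h7, h3.trans Set.subset_union_right⟩
    · rw [hedge]
      exact Set.union_subset h5 h4

lemma Gen.mem {C : Set (FreeGroup A)} {V : Set (List (A × Bool))} {c : FreeGroup A}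
    {w : List (A × Bool)} (h : Gen W C V c w) : c ∈ insert 1 C := by
  cases h with
  | nil => exact Or.inl rfl
  | step _ x v w hc => exact Or.inr hc

lemma Gen.regular [Finite A] {C : Set (FreeGroup A)} {V : Set (List (A × Bool))}
    (hC : C.Finite) (hV : V.Finite) : Language.IsRegular ({w | Gen W C V 1 w} : Language _) := by
  -- suffixes
  let T : Set (List (A × Bool)) := insert [] (⋃ v ∈ V, ⋃ x : A × Bool, {r | r <:+ v ++ [x]})
  have hT : T.Finite := by
    apply Set.Finite.insert
    apply hV.biUnion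
    intro v _
    apply Set.finite_iUnion
    intro x
    have : {r : List (A × Bool) | r <:+ v ++ [x]} = {r | r ∈ (v ++ [x]).tails} := by
      ext r; simp only [Set.mem_ofPred_eq, List.mem_tails]
    rw [this]
    exact List.finite_toSet _
  have hTsuf : ∀ b r, b :: r ∈ T → r ∈ T := by
    intro b r h
    rcases h with h | h
    · cases h
    · simp only [Set.mem_iUnion, Set.mem_ofPred_eq] at h
      obtain ⟨v, hv, x, hx⟩ := h
      right
      simp only [Set.mem_iUnion, Set.mem_ofPred_eq]
      exact ⟨v, hv, x, (List.suffix_cons b r).trans hx⟩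
  let S : Set (FreeGroup A × List (A × Bool)) := (insert 1 C) ×ˢ T
  have hS : S.Finite := (hC.insert 1).prod hT
  have : Finite S := hS
  let P : S → Language (A × Bool) := fun s => {w | ∃ w', w = s.1.2 ++ w' ∧ Gen W C V s.1.1 w'}
  have hP : ∀ i, (P i).IsRegular := by
    apply regular_of_family
    rintro ⟨⟨c, r⟩, hc, hr⟩ a
    simp only at hc hr
    cases r with
    | cons b r =>
      by_cases hab : a = b
      · subst hab
        refine ⟨{⟨(c, r), hc, hTsuf _ _ hr⟩}, fun w => ?_⟩
        constructor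
        · rintro ⟨w', h1, h2⟩
          simp only [List.cons_append, List.cons.injEq, true_and] at h1
          exact ⟨_, rfl, w', h1, h2⟩
        · rintro ⟨j, hj, w', h1, h2⟩
          rw [Set.mem_singleton_iff] at hj
          subst hj
          exact ⟨w', by simp only [List.cons_append]; rw [h1], h2⟩
      · refine ⟨∅, fun w => ?_⟩
        constructor
        · rintro ⟨w', h1, h2⟩
          simp only [List.cons_append, List.cons.injEq] at h1
          exact absurd h1.1 hab
        · rintro ⟨j, hj, -⟩
          exact absurd hj (Set.notMem_empty _)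
    | nil =>
      refine ⟨{s | ∃ x v, c ∈ C ∧ v ∈ V ∧ ledge 1 x ∈ edges 1 v ∧
        tr c '' simg W (edges 1 v) = edges 1 v ∧
        s.1.1 = (mk [x])⁻¹ * c * phib W (mk [x]) ∧ a :: s.1.2 = v ++ [x]}, fun w => ?_⟩
      constructor
      · rintro ⟨w', h1, h2⟩
        simp only [List.nil_append] at h1
        simp only at h2
        subst h1
        generalize hw : a :: w = w'' at h2
        cases h2 with
        | nil => cases hw
        | step _ x v w' hc' hv h3 h4 h5 =>
          obtain ⟨r, hr1, hr2⟩ : ∃ r, a :: r = v ++ [x] ∧ w = r ++ w' := by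
            cases v with
            | nil =>
              simp only [List.nil_append, List.cons.injEq] at hw
              exact ⟨[], by simp [hw.1], by simp [hw.2]⟩
            | cons y v =>
              simp only [List.cons_append, List.cons.injEq] at hw
              exact ⟨v ++ [x], by simp [hw.1], by simp [hw.2]⟩
          have hrT : r ∈ T := by
            right
            simp only [Set.mem_iUnion, Set.mem_ofPred_eq]
            exact ⟨v, hv, x, ⟨[a], by simpa using hr1⟩⟩
          exact ⟨⟨(_, r), h5.mem, hrT⟩, ⟨x, v, hc', hv, h3, h4, rfl, hr1⟩, w', hr2, h5⟩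
      · rintro ⟨⟨⟨c', r⟩, hc', hr'⟩, ⟨x, v, hcC, hv, h3, h4, h5, h6⟩, w', h7, h8⟩
        simp only at h5 h6 h7 h8
        refine ⟨a :: w, rfl, ?_⟩
        have : a :: w = v ++ x :: w' := by
          rw [h7, ← List.cons_append, h6]; simp
        rw [this]
        apply Gen.step c x v w' hcC hv h3 h4
        rw [← h5]; exact h8
  have := hP ⟨(1, []), Or.inl rfl, Or.inl rfl⟩
  convert this using 1
  ext w
  constructor
  · intro h; exact ⟨w, rfl, h⟩
  · rintro ⟨w', h1, h2⟩
    simp only [List.nil_append] at h1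
    rw [h1]; exact h2

/-- Finitely many displacements imply rationality. -/
theorem rational_of_finite_disp [Finite A] (φ : FreeInverseMonoid A →* FreeInverseMonoid A)
    (hW : ∀ w, φ (proj w) = proj (Phi W w)) {C : Set (FreeGroup A)} (hC : C.Finite)
    (h : ∀ w, IsFix W w → ∀ v ∈ vlist w, disp W v ∈ C) :
    IsRationalSubset (fixedPoints φ) := by
  obtain ⟨V, hV, hV1, hloop⟩ := exists_loops W hC h
  refine ⟨{w | Gen W C V 1 w}, Gen.regular W hC hV, ?_⟩
  ext y
  constructor
  · intro hy
    obtain ⟨w, rfl⟩ := proj_surjective y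
    have hw := (isFix_iff φ W hW w).1 hy
    obtain ⟨w', h1, h2, h3, h4⟩ := Gen.complete W h hV1 hloop hw w [] rfl
    rw [← FreeGroup.one_eq_mk] at h1 h3 h4
    refine ⟨w', ?_, ?_⟩
    · have : disp W 1 = 1 := by simp [disp]
      rw [this] at h1
      exact h1
    · exact proj_eq_of_edges (Set.Subset.antisymm h4 h3) h2
  · rintro ⟨w, hw, rfl⟩
    rw [isFix_iff φ W hW]
    obtain ⟨h1, h2⟩ := Gen.sound W hV1 hw 1 (by simp [disp])
    refine ⟨h1, ?_⟩
    rw [one_mul] at h2
    have h3 : (mk w)⁻¹ * phib W (mk w) = 1 := h2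
    exact (inv_mul_eq_one.1 h3).symm

end Pool.Agent.Helper1.FIM
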